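import Mathlib.SetTheory.Cardinal.Arithmetic
import Mathlib.SetTheory.Cardinal.Continuum
import Mathlib.Data.Set.Finite.Lattice

/-! Partial isometries of the Cantor set, and small sets. -/

namespace Pool.Agent.Work.MP_3181e1_lc

open Cardinal

abbrev Seq : Type := ℕ → Bool

def agree (k : ℕ) (a b : Seq) : Prop := ∀ j < k, a j = b j

theorem agree.symm {k : ℕ} {a b : Seq} (h : agree k a b) : agree k b a :=
  fun j hj => (h j hj).symm

theorem agree.trans {k : ℕ} {a b c : Seq} (h : agree k a b) (h' : agree k b c) : agree k a c :=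
  fun j hj => (h j hj).trans (h' j hj)

theorem agree.mono {k m : ℕ} {a b : Seq} (h : agree k a b) (hm : m ≤ k) : agree m a b :=
  fun j hj => h j (by omega)

theorem agree_refl (k : ℕ) (a : Seq) : agree k a a := fun _ _ => rfl

/-- The pairs `(a, b)` and `(a', b')` may belong to one isometry. -/
def WI (a b a' b' : Seq) : Prop := ∀ k, agree k a a' ↔ agree k b b'

theorem WI.refl (a b : Seq) : WI a b a b := fun k => iff_of_true (agree_refl k a) (agree_refl k b)

theorem WI.swap {a b a' b' : Seq} (h : WI a b a' b') : WI b a b' a' := fun k => (h k).symm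

theorem WI.symm {a b a' b' : Seq} (h : WI a b a' b') : WI a' b' a b := fun k =>
  ⟨fun h1 => ((h k).1 h1.symm).symm, fun h1 => ((h k).2 h1.symm).symm⟩

def Sep (a b a' b' : Seq) : Prop := a ≠ a' ∧ WI a b a' b'

theorem Sep.swap {a b a' b' : Seq} (h : Sep a b a' b') : Sep b a b' a' := by
  refine ⟨fun hb => h.1 (funext fun j => ?_), h.2.swap⟩
  exact (h.2 (j + 1)).2 (hb ▸ agree_refl _ _) j (Nat.lt_succ_self j)

theorem Sep.symm {a b a' b' : Seq} (h : Sep a b a' b') : Sep a' b' a b :=
  ⟨h.1.symm, h.2.symm⟩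

theorem agree_congr {N : ℕ} {a a' c c' : Seq} (h : ¬ agree N a a') (h1 : agree N c a)
    (h2 : agree N c' a') (k : ℕ) : agree k c c' ↔ agree k a a' := by
  rcases le_total k N with hk | hk
  · exact ⟨fun h3 => ((h1.mono hk).symm.trans h3).trans (h2.mono hk),
      fun h3 => ((h1.mono hk).trans h3).trans (h2.mono hk).symm⟩
  · exact iff_of_false (fun h3 => h ((h1.symm.trans (h3.mono hk)).trans h2))
      (fun h3 => h (h3.mono hk))

theorem sep_of_wi {N : ℕ} {a b a' b' c d c' d' : Seq} (h : WI a b a' b') (hN : ¬ agree N a a')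
    (h1 : agree N c a) (h2 : agree N d b) (h3 : agree N c' a') (h4 : agree N d' b') :
    Sep c d c' d' := by
  refine ⟨fun hc => hN ((h1.symm.trans (hc ▸ agree_refl _ _)).trans h3), fun k => ?_⟩
  rw [agree_congr hN h1 h3, agree_congr (fun h5 => hN ((h N).2 h5)) h2 h4]
  exact h k

theorem agree_update {N : ℕ} {a a' : Seq} {u u' : Bool} (hu : u ≠ u') (k : ℕ) :
    agree k (Function.update a N u) (Function.update a' N u') ↔ agree k a a' ∧ k ≤ N := by
  constructor
  · intro h
    have hk : k ≤ N := by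
      by_contra hk
      have := h N (by omega)
      simp only [Function.update_self] at this
      exact hu this
    refine ⟨fun j hj => ?_, hk⟩
    have := h j hj
    rwa [Function.update_of_ne (by omega), Function.update_of_ne (by omega)] at this
  · rintro ⟨h, hk⟩ j hj
    rw [Function.update_of_ne (by omega), Function.update_of_ne (by omega)]
    exact h j hj

theorem WI.update {N : ℕ} {a b a' b' : Seq} (h : WI a b a' b') {u u' v v' : Bool} (hu : u ≠ u')
    (hv : v ≠ v') : WI (Function.update a N u) (Function.update b N v)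
      (Function.update a' N u') (Function.update b' N v') := fun k => by
  rw [agree_update hu, agree_update hv, h k]

/-- One point extension of a partial isometry. -/
theorem exists_ext (F : Seq → Seq → Prop) (hF : ∀ a b a' b', F a b → F a' b' → WI a b a' b')
    (a0 : Seq) : ∃ b0, ∀ a b, F a b → WI a0 b0 a b := by
  classical
  let b0 : Seq := fun k =>
    if h : ∃ ab : Seq × Seq, F ab.1 ab.2 ∧ agree k a0 ab.1 then
      xor (a0 k) (xor (h.choose.1 k) (h.choose.2 k)) else a0 k
  have key : ∀ a b k, F a b → agree k a0 a → b0 k = xor (a0 k) (xor (a k) (b k)) := by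
    intro a b k hab hk
    have h : ∃ ab : Seq × Seq, F ab.1 ab.2 ∧ agree k a0 ab.1 := ⟨(a, b), hab, hk⟩
    have h1 := h.choose_spec
    simp only [b0, dif_pos h]
    generalize h.choose = ab at h1
    obtain ⟨a1, b1⟩ := ab
    have hw := hF _ _ _ _ h1.1 hab
    have ha : agree k a1 a := h1.2.symm.trans hk
    have hb : agree k b1 b := (hw k).1 ha
    have h2 : a1 k = a k ↔ b1 k = b k := by
      constructor
      · intro e
        refine (hw (k + 1)).1 (fun j hj => ?_) k (Nat.lt_succ_self k)
        rcases Nat.lt_succ_iff_lt_or_eq.1 hj with hj | rfl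
        · exact ha j hj
        · exact e
      · intro e
        refine (hw (k + 1)).2 (fun j hj => ?_) k (Nat.lt_succ_self k)
        rcases Nat.lt_succ_iff_lt_or_eq.1 hj with hj | rfl
        · exact hb j hj
        · exact e
    revert h2
    simp only
    cases a1 k <;> cases a k <;> cases b1 k <;> cases b k <;> simp
  refine ⟨b0, fun a b hab k => ⟨fun h j hj => ?_, fun h => ?_⟩⟩
  · rw [key a b j hab (h.mono hj.le), h j hj]
    cases a j <;> cases b j <;> rfl
  · intro j
    induction j using Nat.strong_induction_on with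
    | _ j ih =>
      intro hj
      have h1 := key a b j hab (fun i hi => ih i hi (by omega))
      rw [h j hj] at h1
      revert h1
      cases a0 j <;> cases a j <;> cases b j <;> simp

/-! Small sets. -/

section small
variable {μ : Cardinal.{0}}

theorem small_union (hμ : ℵ₀ ≤ μ) {X : Type} {s t : Set X} (hs : #s ≤ μ) (ht : #t ≤ μ) :
    #(s ∪ t : Set X) ≤ μ :=
  (mk_union_le s t).trans (add_le_of_le hμ hs ht)

theorem small_countable (hμ : ℵ₀ ≤ μ) {X : Type} {s : Set X} (hs : s.Countable) : #s ≤ μ :=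
  (le_aleph0_iff_set_countable.2 hs).trans hμ

theorem small_mono {X : Type} {s t : Set X} (h : s ⊆ t) (ht : #t ≤ μ) : #s ≤ μ :=
  (mk_le_mk_of_subset h).trans ht

theorem small_image {X Y : Type} (f : X → Y) {s : Set X} (hs : #s ≤ μ) : #(f '' s) ≤ μ :=
  mk_image_le.trans hs

theorem small_preimage {X Y : Type} {f : X → Y} (hf : Function.Injective f) {s : Set Y}
    (hs : #s ≤ μ) : #(f ⁻¹' s) ≤ μ :=
  (mk_preimage_of_injective f s hf).trans hs

theorem small_biUnion (hμ : ℵ₀ ≤ μ) {X Y : Type} {s : Set X} (hs : #s ≤ μ) (f : X → Set Y)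
    (hf : ∀ x ∈ s, #(f x) ≤ μ) : #(⋃ x ∈ s, f x : Set Y) ≤ μ := by
  rw [Set.biUnion_eq_iUnion]
  refine (mk_iUnion_le_sum_mk).trans ((sum_le_sum _ (fun _ => μ) fun x : s => hf x.1 x.2).trans ?_)
  rw [sum_const']
  exact mul_le_of_le hμ hs le_rfl

theorem small_prod (hμ : ℵ₀ ≤ μ) {X Y : Type} {s : Set X} {t : Set Y} (hs : #s ≤ μ)
    (ht : #t ≤ μ) : #(s ×ˢ t : Set (X × Y)) ≤ μ := by
  rw [mk_setProd]
  exact mul_le_of_le hμ hs ht

theorem small_univ {X : Type} (h : #X ≤ μ) : #(Set.univ : Set X) ≤ μ := by rwa [mk_univ]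

theorem small_lists (hμ : ℵ₀ ≤ μ) {X : Type} {s : Set X} (hs : #s ≤ μ) :
    #{l : List X | ∀ x ∈ l, x ∈ s} ≤ μ := by
  refine small_mono (t := (fun l : List s => l.map Subtype.val) '' Set.univ) ?_
    (small_image _ (small_univ ((mk_list_le_max _).trans (max_le hμ hs))))
  intro l hl
  refine ⟨l.pmap (fun x hx => ⟨x, hx⟩) hl, trivial, ?_⟩
  simp [List.map_pmap]

/-- Closing off under a finitary operation. -/
theorem exists_closure (hμ : ℵ₀ ≤ μ) {X Z : Type} (supp res : Z → Set X)
    (hfin : ∀ z, (supp z).Finite) (hres : ∀ z, #(res z) ≤ μ)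
    (hcnt : ∀ Y : Set X, #Y ≤ μ → #{z | supp z ⊆ Y} ≤ μ) :
    ∃ Y : Set X, #Y ≤ μ ∧ ∀ z, supp z ⊆ Y → res z ⊆ Y := by
  let step : Set X → Set X := fun Y => Y ∪ ⋃ z ∈ {z | supp z ⊆ Y}, res z
  let T : ℕ → Set X := fun n => step^[n] ∅
  have hT : ∀ n, T (n + 1) = step (T n) := fun n => Function.iterate_succ_apply' step n ∅
  have hc : ∀ n, #(T n) ≤ μ := by
    intro n
    induction n with
    | zero => exact small_countable hμ Set.countable_empty
    | succ n ih =>
      rw [hT]
      exact small_union hμ ih (small_biUnion hμ (hcnt _ ih) _ fun z _ => hres z)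
  have hmono : Monotone T := monotone_nat_of_le_succ fun n => by
    rw [hT]; exact Set.subset_union_left
  refine ⟨⋃ n ∈ Set.univ, T n, small_biUnion hμ (small_countable hμ Set.countable_univ) _
    fun n _ => hc n, fun z hz => ?_⟩
  rw [Set.biUnion_univ] at hz ⊢
  obtain ⟨n, hn⟩ : ∃ n, supp z ⊆ T n := by
    have h1 : ∀ x ∈ supp z, ∃ n, x ∈ T n := fun x hx => Set.mem_iUnion.1 (hz hx)
    choose! f hf using h1
    obtain ⟨n, hn⟩ := ((hfin z).image f).bddAbove
    exact ⟨n, fun x hx => hmono (hn (Set.mem_image_of_mem f hx)) (hf x hx)⟩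
  refine Set.Subset.trans ?_ (Set.subset_iUnion T (n + 1))
  rw [hT]
  exact Set.subset_union_of_subset_right (Set.subset_biUnion_of_mem (u := res) hn) _

end small

end Pool.Agent.Work.MP_3181e1_lc
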