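import Mathlib.Data.Set.Countable

/-! Ground-level interface: a poset adding a family of reals `x i` (`i : I`) with the combinatorial
properties that make `X = {x i}` a crowded Baire CDH space of size less than the continuum. -/

namespace Pool.Agent.Work.MP_3181e1_lc

/-- `p` decides the first `n` bits of `x i` to be those of `t`. -/
def Agree {P I : Type} (bit : P → I → ℕ → Bool → Prop) (p : P) (i : I) (n : ℕ) (t : ℕ → Bool) :
    Prop := ∀ m < n, bit p i m (t m)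

/-- `bit p i n b` means that `p` decides the `n`-th bit of `x i` to be `b`. -/
structure CDHSys (P I : Type) [Preorder P] (bit : P → I → ℕ → Bool → Prop) : Prop where
  neP : Nonempty P
  neI : Nonempty I
  mono : ∀ p q i n b, q ≤ p → bit p i n b → bit q i n b
  func : ∀ p i n, bit p i n true → bit p i n false → False
  long : ∀ p i n, ∃ q, q ≤ p ∧ ∃ b, bit q i n b
  dist : ∀ p i j, i ≠ j → ∃ q, q ≤ p ∧ ∃ m b, bit q i m b ∧ bit q j m (!b)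
  fresh : ∀ p i n t, ∃ q, q ≤ p ∧ ∃ j, j ≠ i ∧ Agree bit q j n t
  ccc : ∀ T : Set P, ∃ T', T' ⊆ T ∧ T'.Countable ∧ ∀ p ∈ T, ∃ p' ∈ T', ∃ r, r ≤ p ∧ r ≤ p'
  baire : ∀ T : ℕ → P → ℕ → (ℕ → Bool) → Prop,
    (∀ k p n (t : ℕ → Bool), ∃ r, r ≤ p ∧ ∃ (n' : ℕ) (t' : ℕ → Bool), n ≤ n' ∧ (∀ m < n, t' m = t m) ∧ T k r n' t') →
    ∀ p n t, ∃ q, q ≤ p ∧ ∃ j, Agree bit q j n t ∧
      ∀ k q', q' ≤ q → ∃ r, r ≤ q' ∧ ∃ r' n' t', r ≤ r' ∧ T k r' n' t' ∧ Agree bit r j n' t'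
  cdh : ∀ (p : P) (D E : I → P → Prop) (K : Set I), K.Countable →
    (∀ i q r, r ≤ q → D i q → D i r) → (∀ i q r, r ≤ q → E i q → E i r) →
    (∀ i q, q ≤ p → D i q → i ∈ K) → (∀ i q, q ≤ p → E i q → i ∈ K) →
    (∀ q n t, q ≤ p → ∃ r, r ≤ q ∧ ∃ j, D j r ∧ Agree bit r j n t) →
    (∀ q n t, q ≤ p → ∃ r, r ≤ q ∧ ∃ j, E j r ∧ Agree bit r j n t) →
    ∃ e : P → I → I → Prop, (∀ q r i j, r ≤ q → e q i j → e r i j) ∧
      (∀ q i, q ≤ p → ∃ r, r ≤ q ∧ ∃ j, e r i j) ∧ (∀ q j, q ≤ p → ∃ r, r ≤ q ∧ ∃ i, e r i j) ∧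
      (∀ q i j, q ≤ p → e q i j →
        (D i q ∧ E j q) ∨ ((∀ r, r ≤ q → ¬ D i r) ∧ ∀ r, r ≤ q → ¬ E j r)) ∧
      ∀ q i j i' j' n (a a' b b' : ℕ → Bool), e q i j → e q i' j' → Agree bit q i n a → Agree bit q i' n a' →
        Agree bit q j n b → Agree bit q j' n b' →
        ((∀ m < n, a m = a' m) ↔ ∀ m < n, b m = b' m)
  big : ∀ T : I → ℕ → P → Prop, (∀ i n q r, r ≤ q → T i n q → T i n r) →
    ∃ c : P → ℕ → Bool → Prop, (∀ q r n b, r ≤ q → c q n b → c r n b) ∧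
      (∀ q n, c q n true → c q n false → False) ∧
      ∀ i p, ∃ q, q ≤ p ∧ ∃ n, (T i n q ∧ c q n false) ∨ ((∀ r, r ≤ q → ¬ T i n r) ∧ c q n true)

end Pool.Agent.Work.MP_3181e1_lc
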