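import Pool.Agent.Work.MP_3181e1_lc.Luzin
import Pool.Agent.Work.MP_3181e1_lc.Interface

/-! The poset satisfies the interface. -/

namespace Pool.Agent.Work.MP_3181e1_lc

open Cardinal Atom

variable {T J : Type} [LinearOrder J] {𝒟 : Data T J}

namespace Data

def dedge (d : Bool) (η : J) (u v : Pt T J) : Atom (Pt T J) J :=
  cond d (edge η u v) (edge η v u)

variable (𝒟) in
def dAllowed (d : Bool) (p : Set (Atom (Pt T J) J)) (η : J) (u v : Pt T J) : Prop :=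
  cond d (𝒟.Allowed p η u v) (𝒟.Allowed p η v u)

theorem subset_reset {p q : Set (Atom (Pt T J) J)} (h : p ⊆ q) (η : J) : p ⊆ Data.reset p q η :=
  fun _ ha => ⟨h ha, Or.inl ha⟩

theorem Valid.extend {p : Set (Atom (Pt T J) J)} (hp : 𝒟.Valid p) (d : Bool) (η : J) (y : Pt T J)
    (hfind : ∀ q, 𝒟.Valid q → p ⊆ q → ∀ (N : ℕ) (t : Seq), ∃ r, 𝒟.Valid r ∧ q ⊆ r ∧ ∃ z,
      (∀ k < N, bit z k (t k) ∈ r) ∧ 𝒟.dAllowed d (Data.reset q r η) η y z) :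
    ∃ r, 𝒟.Valid r ∧ p ⊆ r ∧ ∃ z, dedge d η y z ∈ r := by
  by_cases h : ∃ v, dedge d η y v ∈ p
  · exact ⟨p, hp, le_rfl, h⟩
  obtain ⟨q, hq, hpq, he, N, t, ht⟩ := hp.target (fun u v => dedge d η u v ∈ p)
    (fun u v h => by
      cases d
      · exact ⟨mem_pts_right h, mem_pts_left h⟩
      · exact ⟨mem_pts_left h, mem_pts_right h⟩)
    (fun x hx u v u' v' h h' => by
      cases d
      · exact ((hp.iso x hx).wi h h').swap
      · exact (hp.iso x hx).wi h h')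
    y (fun v hv => h ⟨v, hv⟩)
  obtain ⟨r, hr, hqr, z, hz, ha⟩ := hfind q hq hpq N t
  have hr' := hq.reset hr hqr η
  have hs := subset_reset hqr η
  have key : ∀ x, Cons x (Data.reset q r η) → ∀ u v, dedge d η u v ∈ Data.reset q r η →
      Sep (x y) (x z) (x u) (x v) := by
    intro x hx u v huv
    refine ht x (hx.mono hs) (x z) (fun k hk => hx z k _ ⟨hz k hk, Or.inr ?_⟩) u v ?_
    · intro _ _ _ e; cases e
    · cases d
      · exact he _ _ _ (huv.2.resolve_right fun h => lt_irrefl η (h _ _ _ rfl))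
      · exact he _ _ _ (huv.2.resolve_right fun h => lt_irrefl η (h _ _ _ rfl))
  refine ⟨insert (dedge d η y z) (Data.reset q r η), ?_,
    (hpq.trans hs).trans (Set.subset_insert _ _), z, Set.mem_insert _ _⟩
  cases d
  · exact hr'.add_edge (fun x hx u v h => (key x hx v u h).swap) ha
  · exact hr'.add_edge (fun x hx u v h => key x hx u v h) ha

theorem exists_fresh {X : Type} {f : ℕ → X} (hf : Function.Injective f) {s : Set X}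
    (hs : s.Finite) : ∃ n, f n ∉ s := by
  by_contra h
  push Not at h
  exact Set.infinite_of_injective_forall_mem hf h hs

theorem Valid.extend_out {p : Set (Atom (Pt T J) J)} (hp : 𝒟.Valid p) (d : Bool) (η : J)
    (l : Ix T) (hl : Sum.inl l ∉ 𝒟.A η) (hlow : ∀ w, Sum.inl (w :: l) ∉ 𝒟.A η) :
    ∃ r, 𝒟.Valid r ∧ p ⊆ r ∧ ∃ z, dedge d η (.inl l) z ∈ r := by
  refine hp.extend d η _ fun q hq _ N t => ?_
  obtain ⟨n, hn⟩ := exists_fresh (f := fun n => 𝒟.up η l d n)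
    (fun a b e => by
      simp only [up, Sum.inl.injEq, List.cons.injEq, Prod.mk.injEq] at e
      exact e.1.2.1) (pts_finite hq.fin)
  obtain ⟨r, hr, hqr, -, hb⟩ := hq.add_point hn t N
  refine ⟨r, hr, hqr, _, hb, ?_⟩
  cases d
  · exact Or.inl ⟨hlow _, hl, Or.inr ⟨l, n, rfl, rfl⟩⟩
  · exact Or.inl ⟨hl, hlow _, Or.inl ⟨l, n, rfl, rfl⟩⟩

variable (𝒟) in
/-- The forcing poset. -/
structure P : Type where
  val : Set (Atom (Pt T J) J)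
  prop : 𝒟.Valid val

theorem P.val_injective : Function.Injective (P.val (𝒟 := 𝒟)) := by
  rintro ⟨a, _⟩ ⟨b, _⟩ h
  cases h; rfl

instance : Preorder 𝒟.P where
  le q p := p.1 ⊆ q.1
  le_refl _ := le_rfl
  le_trans _ _ _ h h' := Set.Subset.trans h' h

def bitP (p : 𝒟.P) (i : Ix T) (n : ℕ) (b : Bool) : Prop := bit (.inl i) n b ∈ p.1

theorem cccP (hA : ∀ η, (𝒟.A η).Countable) (U : Set 𝒟.P) :
    ∃ U', U' ⊆ U ∧ U'.Countable ∧ ∀ p ∈ U, ∃ p' ∈ U', ∃ r, r ≤ p ∧ r ≤ p' := by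
  obtain ⟨B, h1, h2, h3⟩ := ccc hA (P.val '' U) (by rintro _ ⟨p, _, rfl⟩; exact p.2)
  refine ⟨{p | p.1 ∈ B}, fun p hp => ?_, h2.preimage_of_injOn P.val_injective.injOn,
    fun p hp => ?_⟩
  · obtain ⟨q, hq, e⟩ := h1 hp
    rwa [← P.val_injective e]
  · obtain ⟨q, hq, u, hu, h4, h5⟩ := h3 p.1 ⟨p, hp, rfl⟩
    obtain ⟨q', -, rfl⟩ := h1 hq
    exact ⟨q', hq, ⟨u, hu⟩, h4, h5⟩

/-- `q` decides `i ∈ D` and `j ∈ E` in the same way. -/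
def Lab (D E : Ix T → 𝒟.P → Prop) (i j : Ix T) (q : 𝒟.P) : Prop :=
  (D i q ∧ E j q) ∨ ((∀ r, r ≤ q → ¬ D i r) ∧ ∀ r, r ≤ q → ¬ E j r)

theorem Lab.swap {D E : Ix T → 𝒟.P → Prop} {i j q} (h : Lab D E i j q) : Lab E D j i q :=
  h.imp And.symm And.symm

theorem find_partner {p : 𝒟.P} {D E : Ix T → 𝒟.P → Prop} {K : Set (Ix T)} {f : ℕ → Ix T}
    (hf : Function.Injective f) (hfK : ∀ n, f n ∉ K) (hD : ∀ i q r, r ≤ q → D i q → D i r)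
    (hEK : ∀ i q, q ≤ p → E i q → i ∈ K)
    (hE : ∀ q n t, q ≤ p → ∃ r, r ≤ q ∧ ∃ j, E j r ∧ Agree bitP r j n t)
    (i : Ix T) (q : 𝒟.P) (hq : q ≤ p) (N : ℕ) (t : Seq) :
    ∃ r, r ≤ q ∧ ∃ j ∈ K ∪ Set.range f, Agree bitP r j N t ∧ Lab D E i j r := by
  by_cases h : ∃ r, r ≤ q ∧ D i r
  · obtain ⟨r, hr, hi⟩ := h
    obtain ⟨s, hs, j, hj, ha⟩ := hE r N t (hr.trans hq)
    exact ⟨s, hs.trans hr, j, Or.inl (hEK j s (hs.trans (hr.trans hq)) hj), ha,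
      Or.inl ⟨hD i r s hs hi, hj⟩⟩
  · obtain ⟨n, hn⟩ := exists_fresh (f := fun n => (Sum.inl (f n) : Pt T J))
      (Sum.inl_injective.comp hf) (pts_finite q.2.fin)
    obtain ⟨r, hr, hqr, -, hb⟩ := q.2.add_point hn t N
    have hle : (⟨r, hr⟩ : 𝒟.P) ≤ q := hqr
    exact ⟨⟨r, hr⟩, hle, f n, Or.inr ⟨n, rfl⟩, hb, Or.inr ⟨fun s hs hi => h ⟨s, hs.trans hle, hi⟩,
      fun s hs hj => hfK n (hEK _ s (hs.trans (hle.trans hq)) hj)⟩⟩

theorem cdhP (hA : ∀ η, (𝒟.A η).Countable) (hT : ℵ₀ < #T)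
    (book : ∀ A0 L0, A0.Countable → L0.Countable → ∃ η, 𝒟.A η = A0 ∧ 𝒟.L η = L0 ∧
      ∀ x ∈ L0, ∀ ζ u v, edge ζ u v ∈ x.1 → ζ < η)
    (p : 𝒟.P) (D E : Ix T → 𝒟.P → Prop) (K : Set (Ix T)) (hK : K.Countable)
    (hD : ∀ i q r, r ≤ q → D i q → D i r) (hE : ∀ i q r, r ≤ q → E i q → E i r)
    (hDK : ∀ i q, q ≤ p → D i q → i ∈ K) (hEK : ∀ i q, q ≤ p → E i q → i ∈ K)
    (hDd : ∀ q n t, q ≤ p → ∃ r, r ≤ q ∧ ∃ j, D j r ∧ Agree bitP r j n t)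
    (hEd : ∀ q n t, q ≤ p → ∃ r, r ≤ q ∧ ∃ j, E j r ∧ Agree bitP r j n t) :
    ∃ η, (∀ q i, q ≤ p → ∃ r : 𝒟.P, r ≤ q ∧ ∃ j, edge η (.inl i) (.inl j) ∈ r.1) ∧
      (∀ q j, q ≤ p → ∃ r : 𝒟.P, r ≤ q ∧ ∃ i, edge η (.inl i) (.inl j) ∈ r.1) ∧
      ∀ q i j, q ≤ p → edge η (.inl i) (.inl j) ∈ q.1 → Lab D E i j q := by
  classical
  have hinf : (Kᶜ).Infinite := fun h => by
    have h1 : (Set.univ : Set (Ix T)).Countable := by
      rw [← Set.union_compl_self K]; exact hK.union h.countable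
    have h2 := h1.preimage_of_injOn (f := fun τ : T => ([(false, 0, τ)] : Ix T))
      (fun a _ b _ e => by simpa using e)
    rw [Set.preimage_univ, ← le_aleph0_iff_set_countable, mk_univ] at h2
    exact absurd hT (not_lt.2 h2)
  let f : ℕ → Ix T := fun n => (hinf.natEmbedding _ n).1
  have hf : Function.Injective f := Subtype.val_injective.comp (hinf.natEmbedding _).injective
  have hfK : ∀ n, f n ∉ K := fun n => (hinf.natEmbedding _ n).2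
  let A1 : Set (Ix T) := ⋃ l0 ∈ K ∪ Set.range f, {l | l ∈ l0.tails}
  have hA1 : A1.Countable :=
    (hK.union (Set.countable_range f)).biUnion fun l0 _ => (List.finite_toSet _).countable
  have hKA : ∀ l ∈ K ∪ Set.range f, l ∈ A1 := fun l hl =>
    Set.mem_biUnion hl ((List.mem_tails _ _).2 List.suffix_rfl)
  have hlow : ∀ w l, w :: l ∈ A1 → l ∈ A1 := fun w l h => by
    obtain ⟨l0, h0, h1⟩ := Set.mem_iUnion₂.1 h
    exact Set.mem_biUnion h0 ((List.mem_tails _ _).2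
      ((List.suffix_cons w l).trans ((List.mem_tails _ _).1 h1)))
  choose B hB1 hB2 hB3 using fun i j => cccP hA {q | Lab D E i j q}
  let L0 : Set (Finset (Atom (Pt T J) J) × Pt T J × Pt T J) :=
    ⋃ i ∈ A1, ⋃ j ∈ A1, (fun b : 𝒟.P => (b.2.fin.toFinset, Sum.inl i, Sum.inl j)) '' B i j
  obtain ⟨η, hAη, hLη, hsup⟩ := book (Sum.inl '' A1) L0 (hA1.image _)
    (hA1.biUnion fun i _ => hA1.biUnion fun j _ => (hB2 i j).image _)
  have hmem : ∀ l, Sum.inl l ∈ 𝒟.A η ↔ l ∈ A1 := fun l => by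
    rw [hAη]; exact Sum.inl_injective.mem_set_image
  have hallow : ∀ i ∈ A1, ∀ j ∈ A1, ∀ q r : 𝒟.P, Lab D E i j r → ∃ u : 𝒟.P, u ≤ r ∧
      𝒟.Allowed (Data.reset q.1 u.1 η) η (.inl i) (.inl j) := by
    intro i hi j hj q r hr
    obtain ⟨b, hb, u, hu1, hu2⟩ := hB3 i j r hr
    have hL : (b.2.fin.toFinset, (Sum.inl i : Pt T J), (Sum.inl j : Pt T J)) ∈ L0 :=
      Set.mem_biUnion hi (Set.mem_biUnion hj ⟨b, hb, rfl⟩)
    refine ⟨u, hu1, Or.inr ⟨(hmem i).2 hi, (hmem j).2 hj, _, hLη ▸ hL, hsup _ hL, fun a ha => ?_⟩⟩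
    refine ⟨hu2 (b.2.fin.mem_toFinset.1 ha), Or.inr ?_⟩
    rintro ζ u v rfl
    exact hsup _ hL ζ u v ha
  have hends : ∀ (r : 𝒟.P) y z, edge η y z ∈ r.1 → (∃ i, y = .inl i) ∧ ∃ j, z = .inl j := by
    intro r y z h
    rcases r.2.allowed η y z h with ⟨_, _, ⟨l, n, rfl, rfl⟩ | ⟨l, n, rfl, rfl⟩⟩ | ⟨h1, h2, _⟩
    · exact ⟨⟨_, rfl⟩, _, rfl⟩
    · exact ⟨⟨_, rfl⟩, _, rfl⟩
    · rw [hAη] at h1 h2
      obtain ⟨i, -, rfl⟩ := h1
      obtain ⟨j, -, rfl⟩ := h2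
      exact ⟨⟨_, rfl⟩, _, rfl⟩
  have main : ∀ d (q : 𝒟.P) i, q ≤ p →
      ∃ r, 𝒟.Valid r ∧ q.1 ⊆ r ∧ ∃ z, dedge d η (.inl i) z ∈ r := by
    intro d q i hq
    by_cases hi : i ∈ A1
    · refine q.2.extend d η _ fun q' hq' hqq' N t => ?_
      have hle : (⟨q', hq'⟩ : 𝒟.P) ≤ p := le_trans (show (⟨q', hq'⟩ : 𝒟.P) ≤ q from hqq') hq
      cases d
      · obtain ⟨r, hr, j, hj, hb, hl⟩ := find_partner hf hfK hE hDK hDd i ⟨q', hq'⟩ hle N t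
        obtain ⟨u, hu, ha⟩ := hallow j (hKA j hj) i hi ⟨q', hq'⟩ r hl.swap
        exact ⟨u.1, u.2, hu.trans hr, .inl j, fun k hk => hu (hb k hk), ha⟩
      · obtain ⟨r, hr, j, hj, hb, hl⟩ := find_partner hf hfK hD hEK hEd i ⟨q', hq'⟩ hle N t
        obtain ⟨u, hu, ha⟩ := hallow i hi j (hKA j hj) ⟨q', hq'⟩ r hl
        exact ⟨u.1, u.2, hu.trans hr, .inl j, fun k hk => hu (hb k hk), ha⟩
    · exact q.2.extend_out d η i (fun h => hi ((hmem i).1 h))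
        fun w h => hi (hlow w i ((hmem _).1 h))
  refine ⟨η, fun q i hq => ?_, fun q j hq => ?_, fun q i j hq h => ?_⟩
  · obtain ⟨r, hr, h1, z, hz⟩ := main true q i hq
    obtain ⟨j, rfl⟩ := (hends ⟨r, hr⟩ _ _ hz).2
    exact ⟨⟨r, hr⟩, h1, j, hz⟩
  · obtain ⟨r, hr, h1, z, hz⟩ := main false q j hq
    obtain ⟨i, rfl⟩ := (hends ⟨r, hr⟩ _ _ hz).1
    exact ⟨⟨r, hr⟩, h1, i, hz⟩
  · rcases q.2.allowed η _ _ h with ⟨h1, h2, _⟩ | ⟨_, _, a, h3, _, h5⟩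
    · exact Or.inr ⟨fun r hr hi => h1 ((hmem i).2 (hKA i (Or.inl (hDK i r (hr.trans hq) hi)))),
        fun r hr hj => h2 ((hmem j).2 (hKA j (Or.inl (hEK j r (hr.trans hq) hj))))⟩
    · rw [hLη] at h3
      obtain ⟨i', -, h3⟩ := Set.mem_iUnion₂.1 h3
      obtain ⟨j', -, b, hb, e⟩ := Set.mem_iUnion₂.1 h3
      simp only [Prod.mk.injEq, Sum.inl.injEq] at e
      obtain ⟨rfl, rfl, rfl⟩ := e
      have hle : q ≤ b := fun c hc => h5 (b.2.fin.mem_toFinset.2 hc)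
      rcases hB1 _ _ hb with h6 | h6
      · exact Or.inl ⟨hD _ _ _ hle h6.1, hE _ _ _ hle h6.2⟩
      · exact Or.inr ⟨fun r hr => h6.1 r (hr.trans hle), fun r hr => h6.2 r (hr.trans hle)⟩

theorem bigP (hA : ∀ η, (𝒟.A η).Countable)
    (hJ : ∀ F : Ix T → Set J, (∀ i, (F i).Countable) → ∃ η, ∀ i, η ∉ F i)
    (U : Ix T → ℕ → 𝒟.P → Prop) :
    ∃ η : J, ∀ i p, ∃ q : 𝒟.P, q ≤ p ∧ ∃ n, (U i n q ∧ bit (.inr η) n false ∈ q.1) ∨
      ((∀ r, r ≤ q → ¬ U i n r) ∧ bit (.inr η) n true ∈ q.1) := by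
  let Mt : Ix T → J → 𝒟.P → Prop := fun i η p => ∀ q : 𝒟.P, q ≤ p → ∀ n,
    ¬ ((U i n q ∧ bit (.inr η) n false ∈ q.1) ∨
      ((∀ r, r ≤ q → ¬ U i n r) ∧ bit (.inr η) n true ∈ q.1))
  have hM : ∀ i η ζ p p' r, Mt i η p → Mt i ζ p' → r ≤ p → r ≤ p' → η = ζ := by
    intro i η ζ p p' r h h' hr hr'
    by_contra hne
    obtain ⟨q, hq, hrq, m, h1, h2⟩ := r.2.separate (y := .inr η) (z := .inr ζ)
      (fun e => hne (Sum.inr_injective e))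
    have hle : (⟨q, hq⟩ : 𝒟.P) ≤ r := hrq
    by_cases c : ∃ s, s ≤ (⟨q, hq⟩ : 𝒟.P) ∧ U i m s
    · obtain ⟨s, hs, c⟩ := c
      exact h' s (hs.trans (hle.trans hr')) m (Or.inl ⟨c, hs h2⟩)
    · exact h _ (hle.trans hr) m (Or.inr ⟨fun s hs c' => c ⟨s, hs, c'⟩, h1⟩)
  obtain ⟨η, hη⟩ := hJ (fun i => {η | ∃ p, Mt i η p}) fun i => by
    obtain ⟨B, h1, h2, h3⟩ := cccP hA {p | ∃ η, Mt i η p}
    refine (h2.biUnion (t := fun b _ => {η | Mt i η b}) fun b _ =>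
      Set.Subsingleton.countable fun η h ζ h' => hM i η ζ b b b h h' le_rfl le_rfl).mono ?_
    rintro η ⟨p, hp⟩
    obtain ⟨b, hb, r, hr, hr'⟩ := h3 p ⟨η, hp⟩
    obtain ⟨ζ, hζ⟩ := h1 hb
    have := hM i η ζ p b r hp hζ hr hr'
    subst this
    exact Set.mem_biUnion hb hζ
  refine ⟨η, fun i p => ?_⟩
  by_contra hc
  exact hη i ⟨p, fun q hq n h => hc ⟨q, hq, n, h⟩⟩

theorem func_bit (p : 𝒟.P) (y : Pt T J) (n : ℕ) (h : bit y n true ∈ p.1)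
    (h' : bit y n false ∈ p.1) : False := by
  obtain ⟨x, hx⟩ := p.2.cons
  have := (hx y n _ h).symm.trans (hx y n _ h')
  cases this

theorem cdhSys (hA : ∀ η, (𝒟.A η).Countable)
    (hag : ∀ η ζ, η ≠ ζ →
      #{w : Ix T × Bool × ℕ | 𝒟.g η w.1 w.2.1 w.2.2 = 𝒟.g ζ w.1 w.2.1 w.2.2} ≤ 𝔠)
    (hT : 𝔠 < #T)
    (book : ∀ A0 L0, A0.Countable → L0.Countable → ∃ η, 𝒟.A η = A0 ∧ 𝒟.L η = L0 ∧
      ∀ x ∈ L0, ∀ ζ u v, edge ζ u v ∈ x.1 → ζ < η)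
    (hJ : ∀ F : Ix T → Set J, (∀ i, (F i).Countable) → ∃ η, ∀ i, η ∉ F i) :
    CDHSys 𝒟.P (Ix T) bitP where
  neP := ⟨⟨∅, valid_empty⟩⟩
  neI := ⟨[]⟩
  mono _ _ _ _ _ h h' := h h'
  func p i n := func_bit p _ n
  long p i n := by
    obtain ⟨x, hx⟩ := p.2.cons
    exact ⟨⟨_, p.2.add_fill hx (Set.finite_singleton (.inl i)) (n + 1)⟩, Set.subset_union_left,
      _, Or.inr (mem_fill (Set.mem_singleton _) (Nat.lt_succ_self n))⟩
  dist p i j h := by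
    obtain ⟨q, hq, h1, m, h2, h3⟩ := p.2.separate (y := .inl i) (z := .inl j)
      (fun e => h (Sum.inl_injective e))
    exact ⟨⟨q, hq⟩, h1, m, true, h2, h3⟩
  fresh p i n t := by
    obtain ⟨τ⟩ : Nonempty T := mk_ne_zero_iff.1 (lt_of_le_of_lt zero_le hT).ne'
    obtain ⟨m, hm⟩ := exists_fresh (f := fun m => (Sum.inl [(false, m, τ)] : Pt T J))
      (fun a b e => by simpa using e) ((pts_finite p.2.fin).insert (.inl i))
    obtain ⟨r, hr, h1, -, hb⟩ := p.2.add_point (fun h => hm (Or.inr h)) t n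
    exact ⟨⟨r, hr⟩, h1, _, fun e => hm (Or.inl (congrArg _ e)), hb⟩
  ccc := cccP hA
  baire U hU p n t := by
    obtain ⟨j, hj, h⟩ := luzin hA hag hT
      (fun k r n' t' => ∃ h : 𝒟.Valid r, U k ⟨r, h⟩ n' t')
      (fun k q hq n t => by
        obtain ⟨r, hr, n', t', h1, h2, h3⟩ := hU k ⟨q, hq⟩ n t
        exact ⟨r.1, r.2, hr, n', t', h1, h2, r.2, h3⟩) (pts p.1) (pts_finite p.2.fin)
    obtain ⟨q, hq, h1, -, hb⟩ := p.2.add_point hj t n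
    refine ⟨⟨q, hq⟩, h1, j, hb, fun k q' _ => ?_⟩
    obtain ⟨u, hu, h2, r, n', t', h3, ⟨hr, h4⟩, h5⟩ := h k q'.1 q'.2
    exact ⟨⟨u, hu⟩, h2, ⟨r, hr⟩, n', t', h3, h4, h5⟩
  cdh p D E K hK hD hE hDK hEK hDd hEd := by
    obtain ⟨η, h1, h2, h3⟩ := cdhP hA (aleph0_le_continuum.trans_lt hT) book p D E K hK hD hE
      hDK hEK hDd hEd
    refine ⟨fun q i j => edge η (Sum.inl i) (Sum.inl j) ∈ q.1, fun _ _ _ _ h h' => h h', h1, h2, h3,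
      fun q i j i' j' n a a' b b' e e' ha ha' hb hb' => ?_⟩
    obtain ⟨x, hx⟩ := q.2.cons
    have hw := (q.2.iso x hx).wi e e' n
    have g1 : agree n (x (.inl i)) a := fun m hm => hx _ _ _ (ha m hm)
    have g2 : agree n (x (.inl i')) a' := fun m hm => hx _ _ _ (ha' m hm)
    have g3 : agree n (x (.inl j)) b := fun m hm => hx _ _ _ (hb m hm)
    have g4 : agree n (x (.inl j')) b' := fun m hm => hx _ _ _ (hb' m hm)
    exact ⟨fun h => (g3.symm.trans (hw.1 ((g1.trans h).trans g2.symm))).trans g4,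
      fun h => (g1.symm.trans (hw.2 ((g3.trans h).trans g4.symm))).trans g2⟩
  big U _ := by
    obtain ⟨η, h⟩ := bigP hA hJ U
    exact ⟨fun q n b => bit (Sum.inr η) n b ∈ q.1, fun _ _ _ _ h h' => h h',
      fun q n => func_bit q _ n, h⟩

end Data

end Pool.Agent.Work.MP_3181e1_lc
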