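import Pool.Agent.Work.MP_3181e1_lc.Interface
import Pool.Agent.Work.MP_63c7e0_lc.Basic
import Pool.Agent.Lib.ZFModel.ZFC

/-! The generic extension by a `CDHSys` and the external description of the generic reals. -/

namespace Pool.Agent.Work.MP_3181e1_lc
open Pool.Agent.Lib.ZFModel Pool.Agent.Work.MP_63c7e0_lc Name

/-- The external description of the space inside the model. -/
structure CD {M : Type 1} (E : M → M → Prop) where
  nat : ℕ → M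
  w : M
  mem_nat : ∀ a n, E a (nat n) ↔ ∃ m < n, a = nat m
  mem_w : ∀ a, E a w ↔ ∃ n, a = nat n
  J : Type
  t : J → ℕ → Bool
  x : J → M
  mem_x : ∀ a j, E a (x j) ↔ ∃ n, t j n = true ∧ a = nat n
  X : M
  mem_X : ∀ a, E a X ↔ ∃ j, a = x j
  ne : Nonempty J
  inj : Function.Injective t
  fresh : ∀ i n (s : ℕ → Bool), ∃ j, j ≠ i ∧ ∀ m < n, t j m = s m
  baire : ∀ R : M → M → M → Prop, Dfn E (fun v => R (v 0) (v 1) (v 2)) →
    (∀ k n (s : ℕ → Bool), ∃ (n' : ℕ) (s' : ℕ → Bool), n ≤ n' ∧ (∀ m < n, s' m = s m) ∧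
      ∀ j, (∀ m < n', t j m = s' m) → R (x j) (nat k) (nat 0)) →
    ∀ n (s : ℕ → Bool), ∃ j, (∀ m < n, t j m = s m) ∧ ∀ k, R (x j) (nat k) (nat 0)
  cdh : ∀ R : M → M → M → Prop, Dfn E (fun v => R (v 0) (v 1) (v 2)) →
    (∀ i j n k, R (x i) (nat n) (nat k) → R (x j) (nat n) (nat k) → i = j) →
    (∀ k < 2, ∀ n (s : ℕ → Bool), ∃ j l, R (x j) (nat l) (nat k) ∧ ∀ m < n, t j m = s m) →
    ∃ (h : M) (e : J → J → Prop), (∀ p, E p h ↔ ∃ i j, e i j ∧ IsPair E p (x i) (x j)) ∧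
      (∀ i, ∃ j, e i j) ∧ (∀ j, ∃ i, e i j) ∧
      (∀ i j, e i j → ((∃ n, R (x i) (nat n) (nat 0)) ↔ ∃ n, R (x j) (nat n) (nat 1))) ∧
      ∀ i j i' j' n, e i j → e i' j' → ((∀ m < n, t i m = t i' m) ↔ ∀ m < n, t j m = t j' m)
  big : ∀ R : M → M → M → Prop, Dfn E (fun v => R (v 0) (v 1) (v 2)) →
    ∃ c, Sub E c w ∧ ∀ j, ∃ n, ¬ (R (x j) (nat n) (nat 0) ↔ E (nat n) c)

variable {P I : Type} [Preorder P] (bit : P → I → ℕ → Bool → Prop)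

omit [Preorder P] in
def xN (i : I) : Name P := rName natN fun n p => bit p i n true
omit [Preorder P] in
def XN : Name P := rName (xN bit) fun _ _ => True

def F (φ : Fml) (v : ℕ → Name P) (i : I) (n k : ℕ) (q : P) : Prop :=
  Forces Unit φ q (cons (xN bit i) (cons (natN n) (cons (natN k) v)))

variable {bit}

theorem F.mono {φ v} {i : I} {n k} {q r : P} (h : F bit φ v i n k q) (hr : r ≤ q) :
    F bit φ v i n k r := Forces.mono h hr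

omit [Preorder P] in
theorem Agree.congr {p : P} {i : I} {n} {t s : ℕ → Bool} (h : Agree bit p i n t)
    (hs : ∀ m < n, s m = t m) : Agree bit p i n s := fun m hm => hs m hm ▸ h m hm

variable (S : CDHSys P I bit)
include S

theorem Agree.mono {p q : P} {i : I} {n} {t : ℕ → Bool} (h : Agree bit p i n t) (hq : q ≤ p) :
    Agree bit q i n t := fun m hm => S.mono _ _ _ _ _ hq (h m hm)

theorem exists_K (φ : Fml) (v : ℕ → Name P) : ∃ K : Set I, K.Countable ∧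
    ∀ i n k q, F bit φ v i n k q → ∃ r, r ≤ q ∧ ∃ j, j ∈ K ∧ F bit φ v j n k r := by
  choose T h1 h2 h3 using fun a : ℕ × ℕ => S.ccc {q | ∃ i, F bit φ v i a.1 a.2 q}
  choose f hf using fun a q (h : q ∈ T a) => h1 a h
  refine ⟨⋃ a, Set.range fun q : T a => f a q.1 q.2, Set.countable_iUnion fun a => ?_,
    fun i n k q h => ?_⟩
  · have := (h2 a).to_subtype
    exact Set.countable_range _
  · obtain ⟨q', hq', r, h4, h5⟩ := h3 (n, k) q ⟨i, h⟩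
    exact ⟨r, h4, f _ q' hq', Set.mem_iUnion.2 ⟨(n, k), ⟨q', hq'⟩, rfl⟩, (hf _ q' hq').mono h5⟩

def KK (φ : Fml) (v : ℕ → Name P) : Set I := (exists_K S φ v).choose

def DD (φ : Fml) (v : ℕ → Name P) (k : ℕ) (j : I) (r : P) : Prop :=
  (∃ n, F bit φ v j n k r) ∧ j ∈ KK S φ v

def Dns (φ : Fml) (v : ℕ → Name P) (k : ℕ) (p : P) : Prop :=
  ∀ q n t, q ≤ p → ∃ r, r ≤ q ∧ ∃ j, DD S φ v k j r ∧ Agree bit r j n t

theorem exists_e (φ : Fml) (v : ℕ → Name P) (p : P) : ∃ e : P → I → I → Prop,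
    Dns S φ v 0 p → Dns S φ v 1 p → (∀ q r i j, r ≤ q → e q i j → e r i j) ∧
      (∀ q i, q ≤ p → ∃ r, r ≤ q ∧ ∃ j, e r i j) ∧ (∀ q j, q ≤ p → ∃ r, r ≤ q ∧ ∃ i, e r i j) ∧
      (∀ q i j, q ≤ p → e q i j → (DD S φ v 0 i q ∧ DD S φ v 1 j q) ∨
        ((∀ r, r ≤ q → ¬ DD S φ v 0 i r) ∧ ∀ r, r ≤ q → ¬ DD S φ v 1 j r)) ∧
      ∀ q i j i' j' n (a a' b b' : ℕ → Bool), e q i j → e q i' j' → Agree bit q i n a →
        Agree bit q i' n a' → Agree bit q j n b → Agree bit q j' n b' →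
        ((∀ m < n, a m = a' m) ↔ ∀ m < n, b m = b' m) := by
  by_cases h : Dns S φ v 0 p ∧ Dns S φ v 1 p
  · have hm : ∀ k i q r, r ≤ q → DD S φ v k i q → DD S φ v k i r :=
      fun k i q r hr ⟨⟨n, hn⟩, h⟩ => ⟨⟨n, hn.mono hr⟩, h⟩
    obtain ⟨e, he⟩ := S.cdh p (DD S φ v 0) (DD S φ v 1) (KK S φ v) (exists_K S φ v).choose_spec.1
      (hm 0) (hm 1) (fun _ _ _ h => h.2) (fun _ _ _ h => h.2) h.1 h.2
    exact ⟨e, fun _ _ => he⟩
  · exact ⟨fun _ _ _ => True, fun h1 h2 => absurd ⟨h1, h2⟩ h⟩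

def ee (φ : Fml) (v : ℕ → Name P) (p : P) : P → I → I → Prop := (exists_e S φ v p).choose

def hN (φ : Fml) (v : ℕ → Name P) (p : P) : Name P :=
  rName (fun a : I × I => pairN (xN bit a.1) (xN bit a.2)) fun a q => ee S φ v p q a.1 a.2

def cc (φ : Fml) (v : ℕ → Name P) : P → ℕ → Bool → Prop :=
  (S.big (fun i n q => F bit φ v i n 0 q) fun _ _ _ _ hr h => h.mono hr).choose

def cN (φ : Fml) (v : ℕ → Name P) : Name P := rName natN fun n q => cc S φ v q n true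

omit S in
variable (bit) in
def TT (φ : Fml) (v : ℕ → Name P) (k : ℕ) (r : P) (n : ℕ) (t : ℕ → Bool) : Prop :=
  ∀ j r', r' ≤ r → Agree bit r' j n t → ∃ s, s ≤ r' ∧ F bit φ v j k 0 s

omit S in
variable (bit) in
def BD (φ : Fml) (v : ℕ → Name P) (p : P) : Prop :=
  ∀ k q n (t : ℕ → Bool), q ≤ p → ∃ r, r ≤ q ∧ ∃ (n' : ℕ) (t' : ℕ → Bool), n ≤ n' ∧
    (∀ m < n, t' m = t m) ∧ TT bit φ v k r n' t'

theorem baire_dense {φ : Fml} {v : ℕ → Name P} {p : P} (h : BD bit φ v p) (n : ℕ) (t : ℕ → Bool)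
    (q : P) (hq : q ≤ p) : ∃ r, r ≤ q ∧ ∃ j, Agree bit r j n t ∧ ∀ k, F bit φ v j k 0 r := by
  obtain ⟨r, hr, j, h1, h2⟩ := S.baire
    (fun k r n t => TT bit φ v k r n t ∨ ¬ ∃ s, s ≤ r ∧ s ≤ p) (fun k q n t => by
      by_cases hc : ∃ s, s ≤ q ∧ s ≤ p
      · obtain ⟨s, h1, h2⟩ := hc
        obtain ⟨r, hr, n', t', h3, h4, h5⟩ := h k s n t h2
        exact ⟨r, hr.trans h1, n', t', h3, h4, Or.inl h5⟩
      · exact ⟨q, le_rfl, n, t, le_rfl, fun _ _ => rfl, Or.inr hc⟩) q n t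
  refine ⟨r, hr, j, h1, fun k => Forces.reg fun q' hq' => ?_⟩
  obtain ⟨s, hs, r', n', t', h3, h4 | h4, h5⟩ := h2 k q' hq'
  · obtain ⟨u, hu, h6⟩ := h4 j s h3 h5
    exact ⟨u, hu.trans hs, h6⟩
  · exact absurd ⟨s, h3, hs.trans (hq'.trans (hr.trans hq))⟩ h4

omit S in
/-- Indices of the closure conditions and dense sets. -/
inductive Kd : Type
  | idx | bit (n : ℕ) | dist | fresh (n : ℕ) (l : List Bool) | kk (φ : Fml) (n k : ℕ)
  | dns (φ : Fml) (k : ℕ) | tot (φ : Fml) | sur (φ : Fml) | pr1 (φ : Fml) | pr2 (φ : Fml)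
  | bdec (φ : Fml) | tdec (φ : Fml) (k n : ℕ) (l : List Bool) | bai (φ : Fml) (n : ℕ) (l : List Bool)
  | big (φ : Fml)
  deriving Countable

def RN : Fam P I Kd (Name P) := fun k v c a y => match k with
  | .idx => y = xN bit (a 0)
  | .dist => y = XN bit
  | .tot φ => y = hN S φ v (c 0)
  | .big φ => y = cN S φ v
  | _ => True

def WW : Fam P I Kd (P × I) := fun k v c a y => match k with
  | .idx => v 0 = xN bit y.2
  | .bit n => ∃ b, bit y.1 (a 0) n b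
  | .dist => ∃ m b, bit y.1 (a 0) m b ∧ bit y.1 (a 1) m (!b)
  | .fresh n l => y.2 ≠ a 0 ∧ Agree bit y.1 y.2 n (envOf false l)
  | .kk φ n k => y.2 ∈ KK S φ v ∧ F bit φ v y.2 n k y.1
  | .dns φ k => Dns S φ v k y.1 ∨
      ∃ n t, ∀ r, r ≤ y.1 → ¬ ∃ j, DD S φ v k j r ∧ Agree bit r j n t
  | .tot φ => ee S φ v (c 0) y.1 (a 0) y.2
  | .sur φ => ee S φ v (c 0) y.1 y.2 (a 0)
  | .pr1 φ => ∃ j, v 0 = pairN (xN bit y.2) (xN bit j) ∧
      ee S φ (fun i => v (i + 1)) (c 0) y.1 y.2 j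
  | .pr2 φ => v 0 = pairN (xN bit (a 0)) (xN bit y.2) ∧
      ee S φ (fun i => v (i + 1)) (c 0) y.1 (a 0) y.2
  | .bdec φ => BD bit φ v y.1 ∨ ∃ (k n : ℕ) (t : ℕ → Bool), ∀ r, r ≤ y.1 →
      ¬ ∃ (n' : ℕ) (t' : ℕ → Bool), n ≤ n' ∧ (∀ m < n, t' m = t m) ∧ TT bit φ v k r n' t'
  | .tdec φ k n l => TT bit φ v k y.1 n (envOf false l) ∨
      (Agree bit y.1 y.2 n (envOf false l) ∧ ∀ s, s ≤ y.1 → ¬ F bit φ v y.2 k 0 s)
  | .bai φ n l => Agree bit y.1 y.2 n (envOf false l) ∧ ∀ k, F bit φ v y.2 k 0 y.1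
  | .big φ => ∃ n, (F bit φ v (a 0) n 0 y.1 ∧ cc S φ v y.1 n false) ∨
      ((∀ r, r ≤ y.1 → ¬ F bit φ v (a 0) n 0 r) ∧ cc S φ v y.1 n true)

end Pool.Agent.Work.MP_3181e1_lc
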