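import Pool.Agent.Work.MP_63c7e0_lc.Defs

/-! The notions of the problem, interpreted inside a structure `(M, E)` for the language of set
theory.  Every quantifier ranges over `M` and the only primitive relations are `E` and `=`, so
each definition is the truth in `(M, E)` of the usual first-order definition. -/

namespace Pool.Agent.Work.MP_3181e1_lc
open Pool.Agent.Work.MP_63c7e0_lc

universe u
variable {M : Type u} (E : M → M → Prop)

/-- `f` is an injective function from `A` to `B`. -/
def IsInj (f A B : M) : Prop :=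
  IsFun E f A B ∧ ∀ x x' y, App E f x y → App E f x' y → x = x'

/-- `A` is countable: it injects into `ω`. -/
def IsCountable (A : M) : Prop := ∃ w f, IsOmega E w ∧ IsInj E f A w

/-- `|A| < 2 ^ ℵ₀`: the set `A` injects into the power set of `ω` but is not in bijection with
it. -/
def LtContinuum (A : M) : Prop :=
  ∃ w W, IsOmega E w ∧ (∀ a, E a W ↔ Sub E a w) ∧ (∃ f, IsInj E f A W) ∧ ¬ ∃ f, IsBij E f A W

/-- `(X, τ)` is a subspace of the Cantor set `2 ^ ω`, whose points are identified with the subsets
of `ω`: a set `U ⊆ X` is open if and only if for every `x ∈ U` there is `n ∈ ω` such that `U`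
contains every `y ∈ X` with `y ∩ n = x ∩ n`. -/
def IsCantorSubspace (X τ : M) : Prop :=
  ∃ w, IsOmega E w ∧ (∀ x, E x X → Sub E x w) ∧
    ∀ U, E U τ ↔ Sub E U X ∧ ∀ x, E x U → ∃ n, E n w ∧
      ∀ y, E y X → (∀ m, E m n → (E m y ↔ E m x)) → E y U

/-- `D` is a dense subset of `(X, τ)`. -/
def IsDense (X τ D : M) : Prop :=
  Sub E D X ∧ ∀ U, E U τ → (∃ x, E x U) → ∃ x, E x U ∧ E x D

/-- `(X, τ)` has no isolated points. -/
def IsCrowded (X τ : M) : Prop := ∀ x s, E x X → IsSing E s x → ¬ E s τ

/-- `(X, τ)` is Baire: the intersection of a sequence of dense open sets is dense. -/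
def IsBaire (X τ : M) : Prop :=
  ∀ w f C, IsOmega E w → IsFun E f w τ → (∀ n U, App E f n U → IsDense E X τ U) →
    (∀ x, E x C ↔ E x X ∧ ∀ n U, App E f n U → E x U) → IsDense E X τ C

/-- `(X, τ)` is countable dense homogeneous. -/
def IsCDH (X τ : M) : Prop :=
  ∀ D D', IsCountable E D → IsDense E X τ D → IsCountable E D' → IsDense E X τ D' →
    ∃ h, IsHomeo E h X τ X τ ∧ ∀ y, E y D' ↔ ∃ x, E x D ∧ App E h x y

end Pool.Agent.Work.MP_3181e1_lc
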