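import Pool.Agent.Work.MP_3181e1_lc.Data

/-! The generic extension by a `CDHSys` carries the data `CD`. -/

namespace Pool.Agent.Work.MP_3181e1_lc
open Pool.Agent.Lib.ZFModel Pool.Agent.Work.MP_63c7e0_lc Name

variable {P I : Type} [Preorder P] {bit : P → I → ℕ → Bool → Prop} {S : CDHSys P I bit}
  {p0 : P} {a0 : I} (g : GenW p0 a0 (RN S) (WW S))

theorem x_mem {i : I} (hi : i ∈ g.AN) : xN bit i ∈ g.N := by
  obtain ⟨y, hy, h⟩ := g.clN .idx [] [] [i] mem_list₀ mem_list₀ (mem_list₁ hi) ⟨_, rfl⟩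
  exact h ▸ hy

theorem X_mem : XN bit ∈ g.N := by
  obtain ⟨y, hy, h⟩ := g.clN .dist [] [] [] mem_list₀ mem_list₀ mem_list₀ ⟨_, rfl⟩
  exact h ▸ hy

def natM (n : ℕ) : g.toGen.M := g.toGen.cl ⟨_, g.nat_mem n⟩
def xM (i : g.AN) : g.toGen.M := g.toGen.cl ⟨_, x_mem g i.2⟩

open Classical in
noncomputable def tt (i : g.AN) (n : ℕ) : Bool := decide (∃ p, g.G p ∧ bit p i n true)

theorem tt_eq {i : g.AN} {p n b} (hp : g.G p) (h : bit p i n b) : tt g i n = b := by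
  classical
  cases b
  · refine decide_eq_false ?_
    rintro ⟨q, hq, h'⟩
    obtain ⟨r, _, h1, h2⟩ := g.dir _ _ hp hq
    exact S.func r i n (S.mono _ _ _ _ _ h2 h') (S.mono _ _ _ _ _ h1 h)
  · exact decide_eq_true ⟨p, hp, h⟩

theorem tt_agree {i : g.AN} {p n s} (hp : g.G p) (h : Agree bit p i n s) :
    ∀ m < n, tt g i m = s m := fun m hm => tt_eq g hp (h m hm)

theorem exists_agree (i : g.AN) (n : ℕ) {p : P} (hp : g.G p) :
    ∃ q, g.G q ∧ q ≤ p ∧ Agree bit q i n (tt g i) := by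
  induction n with
  | zero => exact ⟨p, hp, le_rfl, fun m hm => absurd hm (by omega)⟩
  | succ n ih =>
    obtain ⟨q, hq, h1, h2⟩ := ih
    obtain ⟨r, _, hr, _, _, b, hb⟩ := g.meet (.bit n) [] [] [i] mem_list₀ mem_list₀
      (mem_list₁ i.2) p0 g.G_p0 fun q _ => by
        obtain ⟨r, hr, h⟩ := S.long q i n
        exact ⟨r, hr, a0, h⟩
    obtain ⟨s, hs, h3, h4⟩ := g.dir _ _ hq hr
    refine ⟨s, hs, h3.trans h1, fun m hm => ?_⟩
    rcases Nat.lt_succ_iff_lt_or_eq.1 hm with h | rfl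
    · exact S.mono _ _ _ _ _ h3 (h2 m h)
    · rw [tt_eq g hr hb]; exact S.mono _ _ _ _ _ h4 hb

theorem tt_inj : Function.Injective (tt g) := by
  intro i j h
  by_contra hne
  obtain ⟨r, _, hr, _, _, m, b, h1, h2⟩ := g.meet .dist [] [] [i, j] mem_list₀ mem_list₀
    (mem_list₂ i.2 j.2) p0 g.G_p0 fun q _ => by
      obtain ⟨r, hr, h⟩ := S.dist q i j fun h => hne (Subtype.ext h)
      exact ⟨r, hr, a0, h⟩
  have h3 := tt_eq g (i := i) hr h1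
  have h4 := tt_eq g (i := j) hr h2
  rw [h, h4] at h3
  cases b <;> simp at h3

theorem tt_fresh (i : g.AN) (n : ℕ) (s : ℕ → Bool) : ∃ j, j ≠ i ∧ ∀ m < n, tt g j m = s m := by
  obtain ⟨l, _, hl⟩ := exists_envOf false n s
  obtain ⟨r, _, hr, j, hj, h1, h2⟩ := g.meet (.fresh n l) [] [] [i] mem_list₀ mem_list₀
    (mem_list₁ i.2) p0 g.G_p0 fun q _ => S.fresh q i n _
  exact ⟨⟨j, hj⟩, fun h => h1 (congrArg Subtype.val h), fun m hm =>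
    (tt_agree g (i := ⟨j, hj⟩) hr h2 m hm).trans (hl m hm)⟩

theorem mem_xM (a : g.toGen.M) (j : g.AN) :
    g.toGen.E a (xM g j) ↔ ∃ n, tt g j n = true ∧ a = natM g n := by
  classical
  refine (g.toGen.E_rName (x_mem g j.2) a).trans ⟨?_, ?_⟩
  · rintro ⟨n, p, h1, h2, _, rfl⟩
    exact ⟨n, tt_eq g h2 h1, rfl⟩
  · rintro ⟨n, h, rfl⟩
    obtain ⟨p, h1, h2⟩ := of_decide_eq_true h
    exact ⟨n, p, h2, h1, _, rfl⟩

theorem mem_XM (a : g.toGen.M) : g.toGen.E a (g.toGen.cl ⟨_, X_mem g⟩) ↔ ∃ j, a = xM g j := by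
  refine (g.toGen.E_rName (X_mem g) a).trans ⟨?_, ?_⟩
  · rintro ⟨i, p, _, _, hi, rfl⟩
    obtain ⟨_, _, _, j, hj, h⟩ := g.meet .idx [xN bit i] [] [] (mem_list₁ hi) mem_list₀ mem_list₀
      p0 g.G_p0 fun q _ => ⟨q, le_rfl, i, rfl⟩
    exact ⟨⟨j, hj⟩, congrArg _ (Subtype.ext h)⟩
  · rintro ⟨j, rfl⟩
    exact ⟨j, p0, trivial, g.G_p0, _, rfl⟩

theorem truthF (R : g.toGen.M → g.toGen.M → g.toGen.M → Prop)
    (h : Dfn g.toGen.E (fun v => R (v 0) (v 1) (v 2))) :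
    ∃ (φ : Fml) (l : List (Name P)), (∀ x ∈ l, x ∈ g.N) ∧ ∀ (i : g.AN) n k,
      R (xM g i) (natM g n) (natM g k) ↔ ∃ p, g.G p ∧ F bit φ (envOf emptyName l) i n k p := by
  obtain ⟨φ, l, hl, h⟩ := g.toGen.truth3 R
  exact ⟨φ, l, hl, fun i n k => h _ _ _⟩

theorem isPair_pairN {a b : Name P} (ha : a ∈ g.N) (hb : b ∈ g.N) (h : pairN a b ∈ g.N) :
    IsPair g.toGen.E (g.toGen.cl ⟨_, h⟩) (g.toGen.cl ⟨_, ha⟩) (g.toGen.cl ⟨_, hb⟩) := by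
  have zf := g.zfc.zf
  have h1 := g.toGen.mem_upair ha ha (g.upair_mem _ ha _ ha)
  have h2 := g.toGen.mem_upair ha hb (g.upair_mem _ ha _ hb)
  intro z
  refine (g.toGen.mem_upair (g.upair_mem _ ha _ ha) (g.upair_mem _ ha _ hb) h z).trans ⟨?_, ?_⟩
  · rintro (rfl | rfl)
    · exact Or.inl fun x => (h1 x).trans or_self_iff
    · exact Or.inr h2
  · rintro (h3 | h3)
    · exact Or.inl (zf.extensionality _ _ fun x => (h3 x).trans ((h1 x).trans or_self_iff).symm)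
    · exact Or.inr (zf.extensionality _ _ fun x => (h3 x).trans (h2 x).symm)

theorem ext_big (R : g.toGen.M → g.toGen.M → g.toGen.M → Prop)
    (h : Dfn g.toGen.E (fun v => R (v 0) (v 1) (v 2))) :
    ∃ c, Sub g.toGen.E c (g.toGen.cl ⟨_, g.omega_mem⟩) ∧
      ∀ j, ∃ n, ¬ (R (xM g j) (natM g n) (natM g 0) ↔ g.toGen.E (natM g n) c) := by
  obtain ⟨φ, l, hl, hF⟩ := truthF g R h
  have hc : cN S φ (envOf emptyName l) ∈ g.N := by
    obtain ⟨y, hy, h⟩ := g.clN (.big φ) l [] [] hl mem_list₀ mem_list₀ ⟨_, rfl⟩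
    exact h ▸ hy
  obtain ⟨c1, c2, c3⟩ := (S.big (fun i n q => F bit φ (envOf emptyName l) i n 0 q)
    fun _ _ _ _ hr h => h.mono hr).choose_spec
  have hm := g.toGen.E_rName hc
  have hinj : ∀ m n, natM g m = natM g n → m = n := by
    intro m n h
    rcases lt_trichotomy m n with h1 | h1 | h1
    · exact absurd ((g.toGen.mem_nat g.nat_mem _ n).2 ⟨m, h1, h.symm⟩)
        (not_mem_self g.zfc.zf (natM g n))
    · exact h1
    · exact absurd ((g.toGen.mem_nat g.nat_mem _ m).2 ⟨n, h1, h⟩)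
        (not_mem_self g.zfc.zf (natM g m))
  refine ⟨g.toGen.cl ⟨_, hc⟩, fun a ha => ?_, fun j => ?_⟩
  · obtain ⟨n, _, _, _, _, rfl⟩ := (hm a).1 ha
    exact (g.toGen.mem_omega g.nat_mem g.omega_mem _).2 ⟨n, rfl⟩
  · obtain ⟨q, _, hq, _, _, n, h | h⟩ := g.meet (.big φ) l [] [j] hl mem_list₀ (mem_list₁ j.2)
      p0 g.G_p0 fun q _ => by
        obtain ⟨r, hr, h⟩ := c3 j q
        exact ⟨r, hr, a0, h⟩
    · refine ⟨n, fun h' => ?_⟩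
      obtain ⟨m, r, h1, hr, _, h2⟩ := (hm _).1 (h'.1 ((hF j n 0).2 ⟨q, hq, h.1⟩))
      obtain rfl := hinj _ _ h2
      obtain ⟨s, _, h3, h4⟩ := g.dir _ _ hq hr
      exact c2 s n (c1 _ _ _ _ h4 h1) (c1 _ _ _ _ h3 h.2)
    · refine ⟨n, fun h' => ?_⟩
      obtain ⟨r, hr, h1⟩ := (hF j n 0).1 (h'.2 ((hm _).2 ⟨n, q, h.2, hq, _, rfl⟩))
      obtain ⟨s, _, h3, h4⟩ := g.dir _ _ hq hr
      exact h.1 s h3 (h1.mono h4)

theorem ext_baire (R : g.toGen.M → g.toGen.M → g.toGen.M → Prop)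
    (h : Dfn g.toGen.E (fun v => R (v 0) (v 1) (v 2)))
    (hd : ∀ k n (s : ℕ → Bool), ∃ (n' : ℕ) (s' : ℕ → Bool), n ≤ n' ∧ (∀ m < n, s' m = s m) ∧
      ∀ j, (∀ m < n', tt g j m = s' m) → R (xM g j) (natM g k) (natM g 0))
    (n : ℕ) (s : ℕ → Bool) :
    ∃ j, (∀ m < n, tt g j m = s m) ∧ ∀ k, R (xM g j) (natM g k) (natM g 0) := by
  obtain ⟨φ, l, hl, hF⟩ := truthF g R h
  obtain ⟨p, _, hp, _, _, h1 | ⟨k, n, t, h1⟩⟩ := g.meet (.bdec φ) l [] [] hl mem_list₀ mem_list₀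
    p0 g.G_p0 fun q _ => by
      by_cases hq : BD bit φ (envOf emptyName l) q
      · exact ⟨q, le_rfl, a0, Or.inl hq⟩
      · have : ∃ (k : ℕ) (r : P) (n : ℕ) (t : ℕ → Bool), r ≤ q ∧ ∀ s, s ≤ r →
            ¬ ∃ (n' : ℕ) (t' : ℕ → Bool), n ≤ n' ∧ (∀ m < n, t' m = t m) ∧
              TT bit φ (envOf emptyName l) k s n' t' := by
          by_contra hc
          exact hq fun k r n t hr => by_contra fun h2 =>
            hc ⟨k, r, n, t, hr, fun s hs h3 => h2 ⟨s, hs, h3⟩⟩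
        obtain ⟨k, r, n, t, hr, h⟩ := this
        exact ⟨r, hr, a0, Or.inr ⟨k, n, t, h⟩⟩
  · obtain ⟨l', _, hl'⟩ := exists_envOf false n s
    obtain ⟨r, _, hr, j, hj, h2, h3⟩ := g.meet (.bai φ n l') l [] [] hl mem_list₀ mem_list₀
      p hp fun q hq => baire_dense S h1 n _ q hq
    exact ⟨⟨j, hj⟩, fun m hm => (tt_agree g (i := ⟨j, hj⟩) hr h2 m hm).trans (hl' m hm),
      fun k => (hF ⟨j, hj⟩ k 0).2 ⟨r, hr, h3 k⟩⟩
  · exfalso
    obtain ⟨n', s', h2, h3, h4⟩ := hd k n t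
    obtain ⟨l', _, hl'⟩ := exists_envOf false n' s'
    obtain ⟨r, _, hr, j, hj, h5 | h5⟩ := g.meet (.tdec φ k n' l') l [] [] hl mem_list₀ mem_list₀
      p0 g.G_p0 fun q _ => by
        by_cases hq : TT bit φ (envOf emptyName l) k q n' (envOf false l')
        · exact ⟨q, le_rfl, a0, Or.inl hq⟩
        · have : ∃ j r, r ≤ q ∧ Agree bit r j n' (envOf false l') ∧
              ∀ s, s ≤ r → ¬ F bit φ (envOf emptyName l) j k 0 s := by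
            by_contra hc
            exact hq fun j r hr ha => by_contra fun h2 =>
              hc ⟨j, r, hr, ha, fun s hs h3 => h2 ⟨s, hs, h3⟩⟩
          obtain ⟨j, r, hr, h⟩ := this
          exact ⟨r, hr, j, Or.inr h⟩
    · obtain ⟨u, _, h6, h7⟩ := g.dir _ _ hp hr
      exact h1 u h6 ⟨n', envOf false l', h2, fun m hm => (hl' m (by omega)).trans (h3 m hm),
        fun j r' hr' => h5 j r' (hr'.trans h7)⟩
    · obtain ⟨u, hu, h6⟩ := (hF ⟨j, hj⟩ k 0).1 (h4 _ fun m hm =>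
        (tt_agree g (i := ⟨j, hj⟩) hr h5.1 m hm).trans (hl' m hm))
      obtain ⟨v, _, h7, h8⟩ := g.dir _ _ hu hr
      exact h5.2 v h8 (h6.mono h7)

theorem ext_cdh (R : g.toGen.M → g.toGen.M → g.toGen.M → Prop)
    (h : Dfn g.toGen.E (fun v => R (v 0) (v 1) (v 2)))
    (hi : ∀ i j n k, R (xM g i) (natM g n) (natM g k) → R (xM g j) (natM g n) (natM g k) → i = j)
    (hd : ∀ k < 2, ∀ n (s : ℕ → Bool), ∃ j l, R (xM g j) (natM g l) (natM g k) ∧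
      ∀ m < n, tt g j m = s m) :
    ∃ (h : g.toGen.M) (e : g.AN → g.AN → Prop),
      (∀ p, g.toGen.E p h ↔ ∃ i j, e i j ∧ IsPair g.toGen.E p (xM g i) (xM g j)) ∧
      (∀ i, ∃ j, e i j) ∧ (∀ j, ∃ i, e i j) ∧
      (∀ i j, e i j → ((∃ n, R (xM g i) (natM g n) (natM g 0)) ↔
        ∃ n, R (xM g j) (natM g n) (natM g 1))) ∧
      ∀ i j i' j' n, e i j → e i' j' →
        ((∀ m < n, tt g i m = tt g i' m) ↔ ∀ m < n, tt g j m = tt g j' m) := by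
  obtain ⟨φ, l, hl, hF⟩ := truthF g R h
  have hD : ∀ (i : g.AN) k, (∃ n, R (xM g i) (natM g n) (natM g k)) ↔
      ∃ q, g.G q ∧ DD S φ (envOf emptyName l) k i q := by
    intro i k
    refine ⟨fun ⟨n, hn⟩ => ?_, fun ⟨q, hq, ⟨n, hn⟩, _⟩ => ⟨n, (hF _ _ _).2 ⟨q, hq, hn⟩⟩⟩
    obtain ⟨q, hq, h1⟩ := (hF _ _ _).1 hn
    obtain ⟨r, _, hr, j, hj, h2, h3⟩ := g.meet (.kk φ n k) l [] [] hl mem_list₀ mem_list₀ q hq
      fun r hr => (exists_K S φ _).choose_spec.2 i n k r (h1.mono hr)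
    obtain rfl := hi i ⟨j, hj⟩ n k hn ((hF ⟨j, hj⟩ _ _).2 ⟨r, hr, h3⟩)
    exact ⟨r, hr, ⟨n, h3⟩, h2⟩
  have hdm : ∀ k i q r, r ≤ q → DD S φ (envOf emptyName l) k i q →
      DD S φ (envOf emptyName l) k i r := fun k i q r hr ⟨⟨n, hn⟩, h⟩ => ⟨⟨n, hn.mono hr⟩, h⟩
  have hdns : ∀ k < 2, ∃ p, g.G p ∧ Dns S φ (envOf emptyName l) k p := by
    intro k hk
    obtain ⟨p, _, hp, _, _, h1 | ⟨n, t, h1⟩⟩ := g.meet (.dns φ k) l [] [] hl mem_list₀ mem_list₀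
      p0 g.G_p0 fun q _ => by
        by_cases hq : Dns S φ (envOf emptyName l) k q
        · exact ⟨q, le_rfl, a0, Or.inl hq⟩
        · have : ∃ r n t, r ≤ q ∧ ∀ s, s ≤ r →
              ¬ ∃ j, DD S φ (envOf emptyName l) k j s ∧ Agree bit s j n t := by
            by_contra hc
            exact hq fun r n t hr => by_contra fun h2 =>
              hc ⟨r, n, t, hr, fun s hs h3 => h2 ⟨s, hs, h3⟩⟩
          obtain ⟨r, n, t, hr, h⟩ := this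
          exact ⟨r, hr, a0, Or.inr ⟨n, t, h⟩⟩
    · exact ⟨p, hp, h1⟩
    · obtain ⟨j, m, h2, h3⟩ := hd k hk n t
      obtain ⟨q, hq, h4⟩ := (hD j k).1 ⟨m, h2⟩
      obtain ⟨r, hr, h5, h6⟩ := g.dir _ _ hp hq
      obtain ⟨s, _, h7, h8⟩ := exists_agree g j n hr
      exact absurd ⟨j, hdm _ _ _ _ (h7.trans h6) h4, h8.congr fun m hm => (h3 m hm).symm⟩
        (h1 s (h7.trans h5))
  obtain ⟨p1, hp1, d1⟩ := hdns 0 (by omega)
  obtain ⟨p2, hp2, d2⟩ := hdns 1 (by omega)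
  obtain ⟨p3, hp3, h31, h32⟩ := g.dir _ _ hp1 hp2
  obtain ⟨p, hpN, hp, hp3'⟩ := g.below p3 hp3
  obtain ⟨e1, e2, e3, e4, e5⟩ := (exists_e S φ (envOf emptyName l) p).choose_spec
    (fun q n t hq => d1 q n t (hq.trans (hp3'.trans h31)))
    (fun q n t hq => d2 q n t (hq.trans (hp3'.trans h32)))
  have hh : hN S φ (envOf emptyName l) p ∈ g.N := by
    obtain ⟨y, hy, h⟩ := g.clN (.tot φ) l [p] [] hl (mem_list₁ hpN) mem_list₀ ⟨_, rfl⟩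
    exact h ▸ hy
  refine ⟨g.toGen.cl ⟨_, hh⟩, fun i j => ∃ q, g.G q ∧ ee S φ (envOf emptyName l) p q i j,
    fun a => (g.toGen.E_rName hh a).trans ⟨?_, ?_⟩, fun i => ?_, fun j => ?_, ?_, ?_⟩
  · rintro ⟨⟨i, j⟩, q, h1, hq, hN, rfl⟩
    obtain ⟨r, _, hr, i', hi', j', h2, h3⟩ := g.meet (.pr1 φ) (_ :: l) [p] [] (mem_listc hN hl)
      (mem_list₁ hpN) mem_list₀ q hq fun r hr => ⟨r, le_rfl, i, j, rfl, e1 _ _ _ _ hr h1⟩
    obtain ⟨s, _, hs, j'', hj'', h4, h5⟩ := g.meet (.pr2 φ) (_ :: l) [p] [i'] (mem_listc hN hl)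
      (mem_list₁ hpN) (mem_list₁ hi') r hr fun s hs => ⟨s, le_rfl, j', h2, e1 _ _ _ _ hs h3⟩
    have h6 : pairN (xN bit i') (xN bit j'') ∈ g.N := by
      have h4' : pairN (xN bit i) (xN bit j) = pairN (xN bit i') (xN bit j'') := h4
      exact h4' ▸ hN
    refine ⟨⟨i', hi'⟩, ⟨j'', hj''⟩, ⟨s, hs, h5⟩, ?_⟩
    rw [show g.toGen.cl ⟨_, hN⟩ = g.toGen.cl ⟨_, h6⟩ from congrArg _ (Subtype.ext h4)]
    exact isPair_pairN g _ _ h6
  · rintro ⟨i, j, ⟨q, hq, h1⟩, h2⟩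
    have h3 := x_mem g i.2
    have h4 := x_mem g j.2
    have h5 : pairN (xN bit i) (xN bit j) ∈ g.N :=
      g.upair_mem _ (g.upair_mem _ h3 _ h3) _ (g.upair_mem _ h3 _ h4)
    exact ⟨(i, j), q, h1, hq, h5, pair_unique g.zfc.zf h2 (isPair_pairN g h3 h4 h5)⟩
  · obtain ⟨r, _, hr, j, hj, h1⟩ := g.meet (.tot φ) l [p] [i] hl (mem_list₁ hpN) (mem_list₁ i.2)
      p hp fun q hq => e2 q i hq
    exact ⟨⟨j, hj⟩, r, hr, h1⟩
  · obtain ⟨r, _, hr, i, hi, h1⟩ := g.meet (.sur φ) l [p] [j] hl (mem_list₁ hpN) (mem_list₁ j.2)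
      p hp fun q hq => e3 q j hq
    exact ⟨⟨i, hi⟩, r, hr, h1⟩
  · rintro i j ⟨q, hq, h1⟩
    obtain ⟨r, hr, h2, h3⟩ := g.dir _ _ hq hp
    rw [hD, hD]
    rcases e4 r i j h3 (e1 _ _ _ _ h2 h1) with h4 | h4
    · exact iff_of_true ⟨r, hr, h4.1⟩ ⟨r, hr, h4.2⟩
    · refine iff_of_false ?_ ?_
      · rintro ⟨s, hs, h5⟩
        obtain ⟨u, _, h6, h7⟩ := g.dir _ _ hr hs
        exact h4.1 u h6 (hdm _ _ _ _ h7 h5)
      · rintro ⟨s, hs, h5⟩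
        obtain ⟨u, _, h6, h7⟩ := g.dir _ _ hr hs
        exact h4.2 u h6 (hdm _ _ _ _ h7 h5)
  · rintro i j i' j' n ⟨q, hq, h1⟩ ⟨q', hq', h2⟩
    obtain ⟨r, hr, h3, h4⟩ := g.dir _ _ hq hq'
    obtain ⟨r1, hr1, k1, a1⟩ := exists_agree g i n hr
    obtain ⟨r2, hr2, k2, a2⟩ := exists_agree g i' n hr1
    obtain ⟨r3, hr3, k3, a3⟩ := exists_agree g j n hr2
    obtain ⟨r4, _, k4, a4⟩ := exists_agree g j' n hr3
    have k5 : r4 ≤ r := k4.trans (k3.trans (k2.trans k1))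
    exact e5 r4 i j i' j' n _ _ _ _ (e1 _ _ _ _ (k5.trans h3) h1) (e1 _ _ _ _ (k5.trans h4) h2)
      (a1.mono S (k4.trans (k3.trans k2))) (a2.mono S (k4.trans k3)) (a3.mono S k4) a4

theorem CDHSys.exists_cd (S : CDHSys P I bit) :
    ∃ (M : Type 1) (E : M → M → Prop), IsZFC E ∧ Nonempty (CD E) := by
  obtain ⟨p0⟩ := S.neP
  obtain ⟨a0⟩ := S.neI
  obtain ⟨g⟩ := exists_genW p0 a0 (RN S) (WW S)
  exact ⟨_, g.toGen.E, g.zfc, ⟨⟨natM g, g.toGen.cl ⟨_, g.omega_mem⟩, g.toGen.mem_nat g.nat_mem,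
    g.toGen.mem_omega g.nat_mem g.omega_mem, g.AN, tt g, xM g, mem_xM g, _, mem_XM g,
    ⟨⟨a0, g.a0_mem⟩⟩, tt_inj g, tt_fresh g, ext_baire g, ext_cdh g, ext_big g⟩⟩⟩

end Pool.Agent.Work.MP_3181e1_lc
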