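import Pool.Agent.Work.MP_3181e1_lc.CDH
import Mathlib.SetTheory.Cardinal.Finsupp

/-! The ground model data exist. -/

namespace Pool.Agent.Work.MP_3181e1_lc

open Cardinal Atom Order

theorem small_Iio {c : Cardinal.{0}} (x : (succ c).ord.ToType) : #(Set.Iio x) ≤ c := by
  have : #(Set.Iio x) < succ c := by simpa using mk_Iio_lt x
  exact lt_succ_iff.1 this

theorem small_Iic {c : Cardinal.{0}} (hc : ℵ₀ ≤ c) (x : (succ c).ord.ToType) :
    #(Set.Iic x) ≤ c := by
  rw [← Set.Iio_insert, Set.insert_eq]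
  exact small_union hc (small_countable hc (Set.countable_singleton x)) (small_Iio x)

theorem exists_notMem {c : Cardinal.{0}} {X : Type} (h : c < #X) {s : Set X} (hs : #s ≤ c) :
    ∃ x, x ∉ s := by
  by_contra hn
  push Not at hn
  rw [Set.eq_univ_of_forall hn, mk_univ] at hs
  exact absurd h (not_lt.2 hs)

theorem succ_power {c : Cardinal.{0}} (hc : ℵ₀ ≤ c) (h : c ^ ℵ₀ ≤ c) : succ c ^ ℵ₀ ≤ succ c := by
  have hX : #(succ c).ord.ToType = succ c := mk_ord_toType _
  have h1 : #(Set.univ : Set (ℕ → (succ c).ord.ToType)) ≤ succ c := by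
    refine small_mono (t := ⋃ x ∈ (Set.univ : Set (succ c).ord.ToType),
      (fun (f : ℕ → Set.Iio x) n => (f n).1) '' Set.univ) (fun f _ => ?_)
      (small_biUnion (hc.trans (le_succ c)) (small_univ hX.le) _ fun x _ =>
        small_image _ (small_univ ?_))
    · obtain ⟨x, hx⟩ := exists_notMem (c := c) (by rw [hX]; exact lt_succ c)
        (small_biUnion hc (small_countable hc Set.countable_univ) (fun n : ℕ => Set.Iic (f n))
          fun n _ => small_Iic hc _)
      refine Set.mem_biUnion (Set.mem_univ x) ⟨fun n => ⟨f n, ?_⟩, trivial, rfl⟩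
      by_contra hn
      exact hx (Set.mem_biUnion (Set.mem_univ n) (Set.mem_Iic.2 (not_lt.1 hn)))
    · rw [mk_arrow]
      simp only [lift_id, mk_nat]
      exact ((power_le_power_right (small_Iio x)).trans h).trans (le_succ c)
  rw [mk_univ, mk_arrow] at h1
  simpa using h1

/-- An almost disjoint family of `κ⁺` functions `κ → κ`, for `κ = c⁺`. -/
theorem exists_ad {c : Cardinal.{0}} (hc : ℵ₀ ≤ c) {W : Type} (hW : #W ≤ succ c) :
    ∃ G : (succ (succ c)).ord.ToType → W → (succ c).ord.ToType,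
      ∀ η ζ, η ≠ ζ → #{w | G η w = G ζ w} ≤ c := by
  classical
  have hX : #(succ c).ord.ToType = succ c := mk_ord_toType _
  obtain ⟨ρ⟩ := (le_def W (succ c).ord.ToType).1 (hW.trans hX.ge)
  have he : ∀ η : (succ (succ c)).ord.ToType, Nonempty (Set.Iio η ↪ (succ c).ord.ToType) :=
    fun η => (le_def _ _).1 ((small_Iio η).trans hX.ge)
  let e := fun η => (he η).some
  have hstep : ∀ (η : (succ (succ c)).ord.ToType) (R : ∀ ζ, ζ < η → W → (succ c).ord.ToType) w,
      ∃ τ, ∀ ζ (h : ζ < η), e η ⟨ζ, h⟩ < ρ w → τ ≠ R ζ h w := by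
    intro η R w
    obtain ⟨τ, hτ⟩ := exists_notMem (c := c) (by rw [hX]; exact lt_succ c)
      (small_image (fun ζ : Set.Iio η => R ζ.1 ζ.2 w)
        (small_preimage (e η).injective (small_Iio (ρ w))))
    exact ⟨τ, fun ζ h h1 h2 => hτ ⟨⟨ζ, h⟩, h1, h2.symm⟩⟩
  choose st hst using hstep
  let G : (succ (succ c)).ord.ToType → W → (succ c).ord.ToType := wellFounded_lt.fix st
  have hG : ∀ η, G η = st η fun ζ _ => G ζ := fun η => wellFounded_lt.fix_eq st η
  have key : ∀ η ζ, ζ < η → #{w | G η w = G ζ w} ≤ c := by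
    intro η ζ h
    refine small_mono (fun w hw => ?_) (small_preimage ρ.injective (small_Iic hc (e η ⟨ζ, h⟩)))
    by_contra hn
    refine hst η (fun ζ _ => G ζ) w ζ h (not_le.1 hn) ?_
    rw [← hG]; exact hw
  refine ⟨G, fun η ζ h => ?_⟩
  rcases lt_or_gt_of_ne h with h | h
  · simpa only [eq_comm] using key ζ η h
  · exact key η ζ h

/-- Bookkeeping: every datum occurs above any given countable set of indices. -/
theorem exists_book {c : Cardinal.{0}} (hc : ℵ₀ ≤ c) {D : Type} [Nonempty D] (hD : #D ≤ succ c) :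
    ∃ β : (succ c).ord.ToType → D, ∀ δ (C : Set (succ c).ord.ToType), C.Countable →
      ∃ η, β η = δ ∧ ∀ ζ ∈ C, ζ < η := by
  have hX : #(succ c).ord.ToType = succ c := mk_ord_toType _
  obtain ⟨f⟩ := (le_def (D × (succ c).ord.ToType) (succ c).ord.ToType).1 (by
    rw [mk_prod, lift_id, lift_id, hX]
    exact mul_le_of_le (hc.trans (le_succ c)) hD le_rfl)
  have : Nonempty (succ c).ord.ToType :=
    mk_ne_zero_iff.1 (by rw [hX]; exact (succ_pos c).ne')
  refine ⟨fun η => (Function.invFun (fun a : D × (succ c).ord.ToType => f a) η).1, ?_⟩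
  intro δ C hC
  obtain ⟨x, hx⟩ := exists_notMem (c := c) (by rw [hX]; exact lt_succ c)
    (small_preimage (f := fun x => f (δ, x)) (fun a b e => by simpa using e)
      (small_biUnion hc (small_countable hc hC) Set.Iic fun n _ => small_Iic hc _))
  refine ⟨f (δ, x), ?_, fun ζ hζ => ?_⟩
  · simp only
    rw [Function.leftInverse_invFun f.injective]
  · by_contra hn
    exact hx (Set.mem_biUnion hζ (not_lt.1 hn))

theorem mk_countable_sets {c : Cardinal.{0}} (hc : ℵ₀ ≤ c) (h : c ^ ℵ₀ ≤ c) {X : Type}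
    (hX : #X ≤ c) : #{s : Set X // s.Countable} ≤ c := by
  have h1 := mk_bounded_set_le X ℵ₀
  simp only [le_aleph0_iff_set_countable] at h1
  exact h1.trans ((power_le_power_right (max_le hX hc)).trans h)

theorem exists_sys : ∃ (P I : Type) (_ : Preorder P) (bit : P → I → ℕ → Bool → Prop),
    CDHSys P I bit := by
  have h0 : ℵ₀ ≤ 𝔠 := aleph0_le_continuum
  have h1 : ℵ₀ ≤ succ 𝔠 := h0.trans (le_succ _)
  have h2 : ℵ₀ ≤ succ (succ 𝔠) := h1.trans (le_succ _)
  have hp : succ (succ 𝔠) ^ ℵ₀ ≤ succ (succ 𝔠) :=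
    succ_power h1 (succ_power h0 continuum_power_aleph0.le)
  let T := (succ 𝔠).ord.ToType
  let J := (succ (succ 𝔠)).ord.ToType
  have hT : #T = succ 𝔠 := mk_ord_toType _
  have hJ : #J = succ (succ 𝔠) := mk_ord_toType _
  have hI : #(Ix T) ≤ succ 𝔠 := by
    refine (mk_list_le_max _).trans (max_le h1 ?_)
    simp only [mk_prod, lift_id, hT]
    exact mul_le_of_le h1 (mk_le_aleph0.trans h1) (mul_le_of_le h1 (mk_le_aleph0.trans h1) le_rfl)
  have hPt : #(Pt T J) ≤ succ (succ 𝔠) := by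
    simp only [mk_sum, lift_id]
    exact add_le_of_le h2 (hI.trans (le_succ _)) hJ.le
  have hAt : #(Atom (Pt T J) J) ≤ succ (succ 𝔠) := by
    have := small_inside h2 (small_univ hPt) (small_univ hJ.le)
    rwa [Set.eq_univ_of_forall (s := Inside _ _)
      fun a => ⟨Set.subset_univ _, Set.subset_univ _⟩, mk_univ] at this
  have hFin : #(Finset (Atom (Pt T J) J)) ≤ succ (succ 𝔠) := by
    classical
    exact (mk_le_of_surjective List.toFinset_surjective).trans
      ((mk_list_le_max _).trans (max_le h2 hAt))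
  obtain ⟨G, hG⟩ := exists_ad h0 (W := Ix T × Bool × ℕ) (by
    simp only [mk_prod, lift_id]
    exact mul_le_of_le h1 hI (mul_le_of_le h1 (mk_le_aleph0.trans h1) (mk_le_aleph0.trans h1)))
  have : Nonempty ({s : Set (Pt T J) // s.Countable} ×
      {s : Set (Finset (Atom (Pt T J) J) × Pt T J × Pt T J) // s.Countable}) :=
    ⟨⟨∅, Set.countable_empty⟩, ∅, Set.countable_empty⟩
  obtain ⟨β, hβ⟩ := exists_book h1 (D := {s : Set (Pt T J) // s.Countable} ×
      {s : Set (Finset (Atom (Pt T J) J) × Pt T J × Pt T J) // s.Countable}) (by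
    simp only [mk_prod, lift_id]
    refine mul_le_of_le h2 (mk_countable_sets h2 hp hPt) (mk_countable_sets h2 hp ?_)
    simp only [mk_prod, lift_id]
    exact mul_le_of_le h2 hFin (mul_le_of_le h2 hPt hPt))
  let 𝒟 : Data T J := ⟨fun η l b n => G η (l, b, n), fun η => (β η).1.1, fun η => (β η).2.1⟩
  refine ⟨𝒟.P, Ix T, inferInstance, Data.bitP, Data.cdhSys (fun η => (β η).1.2) hG
    (by rw [hT]; exact lt_succ _) (fun A0 L0 hA0 hL0 => ?_) fun F hF => ?_⟩
  · obtain ⟨η, e, hη⟩ := hβ (⟨A0, hA0⟩, ⟨L0, hL0⟩) (⋃ x ∈ L0, ⋃ a ∈ x.1, a.cs)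
      (hL0.biUnion fun x _ => x.1.countable_toSet.biUnion fun a _ => a.cs_finite.countable)
    refine ⟨η, congrArg (fun d => d.1.1) e, congrArg (fun d => d.2.1) e, fun x hx ζ u v h => ?_⟩
    exact hη ζ (Set.mem_biUnion hx (Set.mem_biUnion h (by simp [Atom.cs])))
  · obtain ⟨η, hη⟩ := exists_notMem (c := succ 𝔠) (by rw [hJ]; exact lt_succ _)
      (small_biUnion h1 (small_univ hI) F fun i _ => small_countable h1 (hF i))
    exact ⟨η, fun i h => hη (Set.mem_biUnion (Set.mem_univ i) h)⟩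

end Pool.Agent.Work.MP_3181e1_lc
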