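import Pool.Agent.Work.MP_3181e1_lc.Poset

/-! Small sets of points and coordinates that realise all types; the chain condition. -/

namespace Pool.Agent.Work.MP_3181e1_lc

open Cardinal Atom

section general
variable {X J : Type} {μ : Cardinal.{0}}

/-- `q` contains a copy over `S` of the bits of `p` and of the edges of `p` with index in `K`. -/
def Realises (q p : Set (Atom X J)) (S : Set X) (K : Set J) : Prop :=
  ∃ π : X → X, (∀ y ∈ S, π y = y) ∧ (∀ y k b, bit y k b ∈ p → bit (π y) k b ∈ q) ∧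
    ∀ η y z, edge η y z ∈ p → η ∈ K → edge η (π y) (π z) ∈ q

def Inside (S : Set X) (K : Set J) : Set (Atom X J) := {a | a.pts ⊆ S ∧ a.cs ⊆ K}

theorem realises_of_subset {q p : Set (Atom X J)} (h : p ⊆ q) (S : Set X) (K : Set J) :
    Realises q p S K :=
  ⟨id, fun _ _ => rfl, fun _ _ _ h1 => h h1, fun _ _ _ h1 _ => h h1⟩

theorem small_inside (hμ : ℵ₀ ≤ μ) {S : Set X} {K : Set J} (hS : #S ≤ μ) (hK : #K ≤ μ) :
    #(Inside S K) ≤ μ := by
  refine small_mono (t := (fun a : X × ℕ × Bool => bit a.1 a.2.1 a.2.2) '' (S ×ˢ Set.univ) ∪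
    (fun a : J × X × X => edge a.1 a.2.1 a.2.2) '' (K ×ˢ S ×ˢ S)) ?_
    (small_union hμ (small_image _ (small_prod hμ hS (small_countable hμ Set.countable_univ)))
      (small_image _ (small_prod hμ hK (small_prod hμ hS hS))))
  rintro (⟨y, k, b⟩ | ⟨η, y, z⟩) ⟨h1, h2⟩
  · exact Or.inl ⟨(y, k, b), ⟨h1 (by simp [Atom.pts]), trivial⟩, rfl⟩
  · exact Or.inr ⟨(η, y, z), ⟨h2 (by simp [Atom.cs]), h1 (by simp [Atom.pts]),
      h1 (by simp [Atom.pts])⟩, rfl⟩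

theorem exists_hull [Nonempty X] (hμ : ℵ₀ ≤ μ) {ι : Type} (hι : #ι ≤ μ) (𝒜 : ι → Set (Set (Atom X J)))
    (h𝒜 : ∀ i, ∀ q ∈ 𝒜 i, q.Finite) (F : X → J → Set X) (hF : ∀ y η, #(F y η) ≤ μ)
    (G : J → J → Set X) (hG : ∀ η ζ, #(G η ζ) ≤ μ) (S0 : Set X) (hS0 : #S0 ≤ μ) :
    ∃ (S : Set X) (K : Set J), #S ≤ μ ∧ #K ≤ μ ∧ S0 ⊆ S ∧ (∀ y ∈ S, ∀ η ∈ K, F y η ⊆ S) ∧
      (∀ η ∈ K, ∀ ζ ∈ K, G η ζ ⊆ S) ∧
      ∀ i p, p.Finite → (∃ q ∈ 𝒜 i, Realises q p S K) →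
        ∃ q ∈ 𝒜 i, Realises q p S K ∧ q ⊆ Inside S K := by
  classical
  let Rz : Set (Atom X J) → List (Atom (X ⊕ ℕ) J) → Prop := fun q τ =>
    ∃ π : ℕ → X, ∀ a ∈ τ, a.map (Sum.elim id π) ∈ q
  let supp : (ι × List (Atom (X ⊕ ℕ) J)) ⊕ (X × J) ⊕ (J × J) ⊕ Unit → Set (X ⊕ J) := fun z =>
    match z with
    | .inl (_, τ) => ⋃ a ∈ τ, (Sum.inl '' (Sum.inl ⁻¹' a.pts) ∪ Sum.inr '' a.cs)
    | .inr (.inl (y, η)) => {.inl y, .inr η}
    | .inr (.inr (.inl (η, ζ))) => {.inr η, .inr ζ}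
    | .inr (.inr (.inr _)) => ∅
  let res : (ι × List (Atom (X ⊕ ℕ) J)) ⊕ (X × J) ⊕ (J × J) ⊕ Unit → Set (X ⊕ J) := fun z =>
    match z with
    | .inl (i, τ) => ⋃ h : (∃ q ∈ 𝒜 i, Rz q τ), ⋃ a ∈ h.choose,
        (Sum.inl '' a.pts ∪ Sum.inr '' a.cs)
    | .inr (.inl (y, η)) => Sum.inl '' F y η
    | .inr (.inr (.inl (η, ζ))) => Sum.inl '' G η ζ
    | .inr (.inr (.inr _)) => Sum.inl '' S0
  obtain ⟨Y, hY, hcl⟩ := exists_closure hμ supp res
    (by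
      rintro (⟨i, τ⟩ | ⟨y, η⟩ | ⟨η, ζ⟩ | _)
      · refine (List.finite_toSet τ).biUnion fun a _ => Set.Finite.union ?_ (a.cs_finite.image _)
        exact (a.pts_finite.preimage Sum.inl_injective.injOn).image _
      · exact Set.toFinite _
      · exact Set.toFinite _
      · exact Set.finite_empty)
    (by
      rintro (⟨i, τ⟩ | ⟨y, η⟩ | ⟨η, ζ⟩ | _)
      · refine small_countable hμ (Set.countable_iUnion fun h => ?_)
        refine (h𝒜 i _ h.choose_spec.1).countable.biUnion fun a _ => ?_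
        exact ((a.pts_finite.image _).union (a.cs_finite.image _)).countable
      · exact small_image _ (hF y η)
      · exact small_image _ (hG η ζ)
      · exact small_image _ hS0)
    (by
      intro Y hY
      have h1 : #(Sum.inl ⁻¹' Y : Set X) ≤ μ := small_preimage Sum.inl_injective hY
      have h2 : #(Sum.inr ⁻¹' Y : Set J) ≤ μ := small_preimage Sum.inr_injective hY
      have h3 : #(Sum.inl '' (Sum.inl ⁻¹' Y : Set X) ∪ Set.range Sum.inr : Set (X ⊕ ℕ)) ≤ μ :=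
        small_union hμ (small_image _ h1) (small_countable hμ (Set.countable_range _))
      have h4 := small_prod hμ (small_univ hι) (small_lists hμ (small_inside hμ h3 h2))
      refine small_mono ?_ (small_union hμ (small_image Sum.inl h4) (small_image Sum.inr
        (small_union hμ (small_image Sum.inl (small_prod hμ h1 h2)) (small_image Sum.inr
          (small_union hμ (small_image Sum.inl (small_prod hμ h2 h2))
            (small_countable hμ (Set.countable_range Sum.inr)))))))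
      rintro (⟨i, τ⟩ | ⟨y, η⟩ | ⟨η, ζ⟩ | u) hz
      · refine Or.inl ⟨(i, τ), ⟨trivial, fun a ha => ⟨?_, fun η hη => ?_⟩⟩, rfl⟩
        · rintro (y | n) hy
          · exact Or.inl ⟨y, hz (Set.mem_biUnion ha (Or.inl ⟨y, hy, rfl⟩)), rfl⟩
          · exact Or.inr ⟨n, rfl⟩
        · exact hz (Set.mem_biUnion ha (Or.inr ⟨η, hη, rfl⟩))
      · exact Or.inr ⟨_, Or.inl ⟨(y, η), ⟨hz (Or.inl rfl), hz (Or.inr rfl)⟩, rfl⟩, rfl⟩
      · exact Or.inr ⟨_, Or.inr ⟨_, Or.inl ⟨(η, ζ), ⟨hz (Or.inl rfl), hz (Or.inr rfl)⟩, rfl⟩,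
          rfl⟩, rfl⟩
      · exact Or.inr ⟨_, Or.inr ⟨_, Or.inr ⟨u, rfl⟩, rfl⟩, rfl⟩)
  refine ⟨Sum.inl ⁻¹' Y, Sum.inr ⁻¹' Y, small_preimage Sum.inl_injective hY,
    small_preimage Sum.inr_injective hY, fun y hy => ?_, fun y hy η hη z hz => ?_,
    fun η hη ζ hζ z hz => ?_, ?_⟩
  · exact hcl (.inr (.inr (.inr ()))) (Set.empty_subset _) ⟨y, hy, rfl⟩
  · refine hcl (.inr (.inl (y, η))) ?_ ⟨z, hz, rfl⟩
    rintro _ (rfl | rfl)
    exacts [hy, hη]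
  · refine hcl (.inr (.inr (.inl (η, ζ)))) ?_ ⟨z, hz, rfl⟩
    rintro _ (rfl | rfl)
    exacts [hη, hζ]
  · rintro i p hp ⟨q, hq, π, hπ1, hπ2, hπ3⟩
    obtain ⟨lab, hlab⟩ := Set.countable_iff_exists_injOn.1 (pts_finite hp).countable
    let c : X → X ⊕ ℕ := fun y => if Sum.inl y ∈ Y then .inl y else .inr (lab y)
    have hfin : ((Atom.map c) '' {a ∈ p | a.cs ⊆ Sum.inr ⁻¹' Y}).Finite :=
      (hp.subset (Set.sep_subset _ _)).image _
    let τ := hfin.toFinset.toList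
    have hτ : ∀ a, a ∈ τ ↔ ∃ a0, (a0 ∈ p ∧ a0.cs ⊆ Sum.inr ⁻¹' Y) ∧ a0.map c = a := by
      intro a
      simp only [τ, Finset.mem_toList, Set.Finite.mem_toFinset, Set.mem_image, Set.mem_ofPred_eq]
    have hc : ∀ y y', c y = .inl y' → Sum.inl y' ∈ Y := by
      intro y y' h
      simp only [c] at h
      split_ifs at h with h1
      cases h; exact h1
    have hex : ∃ q ∈ 𝒜 i, Rz q τ := by
      have hπ : ∀ y ∈ pts p,
          Sum.elim id (fun n => π (Function.invFunOn lab (pts p) n)) (c y) = π y := by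
        intro y hy
        simp only [c]
        split_ifs with h1
        · exact (hπ1 y h1).symm
        · simp only [Sum.elim_inr]
          rw [hlab.leftInvOn_invFunOn hy]
      refine ⟨q, hq, fun n => π (Function.invFunOn lab (pts p) n), fun a ha => ?_⟩
      obtain ⟨a0, ⟨h1, h2⟩, rfl⟩ := (hτ a).1 ha
      rcases a0 with ⟨y, k, b⟩ | ⟨η, y, z⟩
      · simp only [Atom.map]
        rw [hπ y (mem_pts_bit h1)]
        exact hπ2 y k b h1
      · simp only [Atom.map]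
        rw [hπ y (mem_pts_left h1), hπ z (mem_pts_right h1)]
        exact hπ3 η y z h1 (h2 (by simp [Atom.cs]))
    obtain ⟨h1, π', h2⟩ := hex.choose_spec
    have hin : res (.inl (i, τ)) ⊆ Y := by
      refine hcl (.inl (i, τ)) (Set.iUnion₂_subset fun a ha => ?_)
      obtain ⟨a0, ⟨h3, h4⟩, rfl⟩ := (hτ a).1 ha
      rintro _ (⟨y, hy, rfl⟩ | ⟨η, hη, rfl⟩)
      · rcases a0 with ⟨y0, k, b⟩ | ⟨η, y0, z0⟩
        · exact hc y0 y (Eq.symm hy)
        · rcases hy with hy | hy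
          · exact hc y0 y (Eq.symm hy)
          · exact hc z0 y (Eq.symm hy)
      · apply h4
        rcases a0 with ⟨y0, k, b⟩ | ⟨η, y0, z0⟩ <;> exact hη
    refine ⟨_, h1, ⟨fun y => Sum.elim id π' (c y), fun y hy => ?_, fun y k b h => ?_,
      fun η y z h hη => ?_⟩, fun a ha => ⟨fun y hy => ?_, fun η hη => ?_⟩⟩
    · simp only [c]
      rw [if_pos (show Sum.inl y ∈ Y from hy)]; rfl
    · exact h2 _ ((hτ _).2 ⟨bit y k b, ⟨h, Set.empty_subset _⟩, rfl⟩)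
    · exact h2 _ ((hτ _).2 ⟨edge η y z, ⟨h, by simpa [Atom.cs] using hη⟩, rfl⟩)
    · exact hin (Set.mem_iUnion.2 ⟨hex, Set.mem_biUnion ha (Or.inl ⟨y, hy, rfl⟩)⟩)
    · exact hin (Set.mem_iUnion.2 ⟨hex, Set.mem_biUnion ha (Or.inr ⟨η, hη, rfl⟩)⟩)

end general

variable {T J : Type} [LinearOrder J] {𝒟 : Data T J}

namespace Data

variable (𝒟) in
/-- The possible neighbours of `y` along `η`. -/
def nb (y : Pt T J) (η : J) : Set (Pt T J) :=
  𝒟.A η ∪ ({z | ∃ w l, y = .inl (w :: l) ∧ z = .inl l} ∪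
    {z | ∃ l b n, y = .inl l ∧ z = 𝒟.up η l b n})

omit [LinearOrder J] in
theorem low_countable (y : Pt T J) :
    {z : Pt T J | ∃ w l, y = .inl (w :: l) ∧ z = .inl l}.Countable := by
  refine Set.Subsingleton.countable ?_
  rintro _ ⟨w, l, h, rfl⟩ _ ⟨w', l', h', rfl⟩
  rw [h] at h'
  cases h'; rfl

omit [LinearOrder J] in
theorem nb_countable (hA : ∀ η, (𝒟.A η).Countable) (y : Pt T J) (η : J) :
    (𝒟.nb y η).Countable := by
  refine (hA η).union ((low_countable y).union ?_)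
  rcases y with l | ζ
  · refine (Set.countable_range fun a : Bool × ℕ => 𝒟.up η l a.1 a.2).mono ?_
    rintro _ ⟨l', b, n, h, rfl⟩
    cases h
    exact ⟨(b, n), rfl⟩
  · refine Set.countable_empty.mono ?_
    rintro _ ⟨l', b, n, h, rfl⟩
    cases h

theorem Allowed.mem_nb {p η y z} (h : 𝒟.Allowed p η y z) : z ∈ 𝒟.nb y η ∧ y ∈ 𝒟.nb z η := by
  rcases h with ⟨_, _, ⟨l, n, rfl, rfl⟩ | ⟨l, n, rfl, rfl⟩⟩ | ⟨h1, h2, _⟩
  · exact ⟨Or.inr (Or.inr ⟨l, _, n, rfl, rfl⟩), Or.inr (Or.inl ⟨_, l, rfl, rfl⟩)⟩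
  · exact ⟨Or.inr (Or.inl ⟨_, l, rfl, rfl⟩), Or.inr (Or.inr ⟨l, _, n, rfl, rfl⟩)⟩
  · exact ⟨Or.inl h2, Or.inl h1⟩

/-- An edge of `p` that is missing in a copy of `p` lies outside. -/
theorem Valid.outside {p q : Set (Atom (Pt T J) J)} (hp : 𝒟.Valid p) {S : Set (Pt T J)}
    {K : Set J} (hcl : ∀ y ∈ S, ∀ η ∈ K, 𝒟.nb y η ⊆ S) {π : Pt T J → Pt T J}
    (h1 : ∀ y ∈ S, π y = y) (h3 : ∀ η y z, edge η y z ∈ p → η ∈ K → edge η (π y) (π z) ∈ q)
    {η y z} (hη : η ∈ K) (he : edge η y z ∈ p) (hn : edge η y z ∉ q) : y ∉ S ∧ z ∉ S := by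
  have h := (hp.allowed η y z he).mem_nb
  have key : ¬ (y ∈ S ∧ z ∈ S) := fun hc => by
    have := h3 η y z he hη
    rw [h1 y hc.1, h1 z hc.2] at this
    exact hn this
  exact ⟨fun hy => key ⟨hy, hcl y hy η hη h.1⟩, fun hz => key ⟨hcl z hz η hη h.2, hz⟩⟩

theorem ccc (hA : ∀ η, (𝒟.A η).Countable) (𝒜 : Set (Set (Atom (Pt T J) J)))
    (h𝒜 : ∀ p ∈ 𝒜, 𝒟.Valid p) :
    ∃ ℬ, ℬ ⊆ 𝒜 ∧ ℬ.Countable ∧ ∀ p ∈ 𝒜, ∃ q ∈ ℬ, ∃ u, 𝒟.Valid u ∧ p ⊆ u ∧ q ⊆ u := by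
  obtain ⟨S, K, hS, hK, -, hcl, -, h⟩ := exists_hull (μ := ℵ₀) le_rfl (ι := Unit) (by simp)
    (fun _ => 𝒜) (fun _ q hq => (h𝒜 q hq).fin) 𝒟.nb
    (fun y η => small_countable le_rfl (nb_countable hA y η)) (fun _ _ => ∅) (by simp) ∅ (by simp)
  refine ⟨{q ∈ 𝒜 | q ⊆ Inside S K}, Set.sep_subset _ _, ?_, fun p hp => ?_⟩
  · refine (Set.countable_ofPred_finite_subset
      (le_aleph0_iff_set_countable.1 (small_inside le_rfl hS hK))).mono ?_
    exact fun q hq => ⟨(h𝒜 q hq.1).fin, hq.2⟩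
  obtain ⟨q, hq, ⟨π, h1, h2, h3⟩, hin⟩ :=
    h () p (h𝒜 p hp).fin ⟨p, hp, realises_of_subset le_rfl S K⟩
  obtain ⟨x, hx⟩ := (h𝒜 q hq).cons
  obtain ⟨u, hu, hpu, hqu, -⟩ := (h𝒜 p hp).amalg (h𝒜 q hq) Set.finite_empty
    (fun _ _ _ h => h) S (t := fun y => x (π y)) (fun y k b hb => hx _ k b (h2 y k b hb))
    (fun y k b hb => by
      show x (π y) k = b
      rw [h1 y ((hin hb).1 (by simp [Atom.pts]))]; exact hx y k b hb)
    (fun _ _ _ h => h.elim)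
    (fun η y z y' z' e1 e2 e3 => by
      have hη : η ∈ K := (hin e2).2 (by simp [Atom.cs])
      have hy' : y' ∈ S := (hin e2).1 (by simp [Atom.pts])
      have hz' : z' ∈ S := (hin e2).1 (by simp [Atom.pts])
      obtain ⟨hy, hz⟩ := (h𝒜 p hp).outside hcl h1 h3 hη e1 e3
      refine ⟨hy, hz, hy', hz', ?_⟩
      rw [h1 y' hy', h1 z' hz']
      exact ((h𝒜 q hq).iso x hx).wi (h3 η y z e1 hη) e2)
  exact ⟨q, ⟨hq, hin⟩, u, hu, hpu, hqu⟩

end Data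

end Pool.Agent.Work.MP_3181e1_lc
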