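import Pool.Agent.Work.MP_3181e1_lc.Hull

/-! All but few of the points are generic over any countable family of dense open sets. -/

namespace Pool.Agent.Work.MP_3181e1_lc

open Cardinal Atom

variable {T J : Type} [LinearOrder J] {𝒟 : Data T J}

namespace Data

omit [LinearOrder J] in
theorem Forest.up_eq {η : J} {l : Ix T} {w} (h : 𝒟.Forest η (.inl l) (.inl (w :: l))) :
    w = (true, w.2.1, 𝒟.g η l true w.2.1) := by
  rcases h with ⟨l', n, h1, h2⟩ | ⟨l', n, h1, h2⟩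
  · cases h1; cases h2; rfl
  · cases h1
    have := congrArg List.length (Sum.inl_injective h2)
    simp at this
    omega

omit [LinearOrder J] in
theorem Forest.down_eq {η : J} {l : Ix T} {w} (h : 𝒟.Forest η (.inl (w :: l)) (.inl l)) :
    w = (false, w.2.1, 𝒟.g η l false w.2.1) := by
  rcases h with ⟨l', n, h1, h2⟩ | ⟨l', n, h1, h2⟩
  · cases h1
    have := congrArg List.length (Sum.inl_injective h2)
    simp at this
    omega
  · cases h1; cases h2; rfl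

/-- Propagation of strings along the forest of missing edges. -/
theorem Valid.propagate {p q : Set (Atom (Pt T J) J)} (hp : 𝒟.Valid p) (hq : 𝒟.Valid q)
    {S : Set (Pt T J)} {K : Set J} (h0 : Sum.inl [] ∈ S)
    (hcl : ∀ y ∈ S, ∀ η ∈ K, 𝒟.nb y η ⊆ S)
    (hG : ∀ η ∈ K, ∀ ζ ∈ K, η ≠ ζ → ∀ l b n, 𝒟.g η l b n = 𝒟.g ζ l b n → 𝒟.up η l b n ∈ S)
    (hin : q ⊆ Inside S K) {π : Pt T J → Pt T J} (h1 : ∀ y ∈ S, π y = y)
    (h3 : ∀ η y z, edge η y z ∈ p → η ∈ K → edge η (π y) (π z) ∈ q)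
    {x1 xq : Pt T J → Seq} (hx1 : Cons x1 p) (hxq : Cons xq q) {n : ℕ}
    (hn : ∀ y k b, bit y k b ∈ p → k < n) (hπ : ∀ y ∈ pts p, agree n (xq (π y)) (x1 y))
    {w0} (hw0 : Sum.inl [w0] ∉ S) (t' : Seq) (ht' : agree n t' (x1 (.inl [w0]))) (n' : ℕ) :
    ∃ u, 𝒟.Valid u ∧ p ⊆ u ∧ q ⊆ u ∧ ∀ m < n', bit (.inl [w0]) m (t' m) ∈ u := by
  classical
  let base : Pt T J → Seq := fun y => if y = .inl [w0] then t' else xq (π y)
  have hb1 : ∀ y ∈ pts p, agree n (base y) (x1 y) := by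
    intro y hy
    simp only [base]
    split_ifs with h
    · rw [h]; exact ht'
    · exact hπ y hy
  have hb2 : ∀ y ∈ S, base y = xq y := by
    intro y hy
    have : y ≠ .inl [w0] := fun e => hw0 (e ▸ hy)
    simp only [base, if_neg this, h1 y hy]
  let Ms : J → Pt T J → Pt T J → Prop := fun η y z => η ∈ K ∧ edge η y z ∈ p ∧ edge η y z ∉ q
  have hout : ∀ η y z, Ms η y z → y ∉ S ∧ z ∉ S ∧ 𝒟.Forest η y z := by
    rintro η y z ⟨a1, a2, a3⟩
    obtain ⟨hy, hz⟩ := hp.outside hcl h1 h3 a1 a2 a3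
    rcases hp.allowed η y z a2 with h | h
    · exact ⟨hy, hz, h.2.2⟩
    · exact absurd (hcl _ h0 η a1 (Or.inl h.1)) hy
  let Rel : (Bool × ℕ × T) → Ix T → Seq → Seq → Prop := fun w l a b =>
    (∀ η, Ms η (.inl l) (.inl (w :: l)) → ∀ y' z', edge η y' z' ∈ q → WI a b (xq y') (xq z')) ∧
    (∀ η, Ms η (.inl (w :: l)) (.inl l) → ∀ y' z', edge η y' z' ∈ q → WI b a (xq y') (xq z')) ∧
    ((∀ η, ¬ Ms η (.inl l) (.inl (w :: l))) → (∀ η, ¬ Ms η (.inl (w :: l)) (.inl l)) →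
      b = base (.inl (w :: l)))
  have huniq : ∀ η ζ l w d, η ∈ K → ζ ∈ K → Sum.inl (w :: l) ∉ S →
      w = (d, w.2.1, 𝒟.g η l d w.2.1) → w = (d, w.2.1, 𝒟.g ζ l d w.2.1) → η = ζ := by
    intro η ζ l w d hη hζ hS e1 e2
    by_contra hne
    have e3 : 𝒟.g η l d w.2.1 = 𝒟.g ζ l d w.2.1 :=
      congrArg (fun v => v.2.2) (e1.symm.trans e2)
    have := hG η hη ζ hζ hne l d _ e3
    rw [up, ← e1] at this
    exact hS this
  have htot : ∀ w l a, ∃ b, Rel w l a b := by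
    intro w l a
    by_cases c1 : ∃ η, Ms η (.inl l) (.inl (w :: l))
    · obtain ⟨η, hη⟩ := c1
      obtain ⟨-, a2, a3⟩ := hout _ _ _ hη
      obtain ⟨b, hb⟩ := exists_ext (fun a b => ∃ u v, edge η u v ∈ q ∧ a = xq u ∧ b = xq v)
        (by
          rintro _ _ _ _ ⟨u, v, h, rfl, rfl⟩ ⟨u', v', h', rfl, rfl⟩
          exact (hq.iso xq hxq).wi h h') a
      refine ⟨b, fun ζ hζ y' z' h => ?_, fun ζ hζ => ?_, fun h => absurd hη (h η)⟩
      · have := huniq η ζ l w true hη.1 hζ.1 a2 a3.up_eq (hout _ _ _ hζ).2.2.up_eq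
        subst this
        exact hb _ _ ⟨y', z', h, rfl, rfl⟩
      · have := congrArg Prod.fst (a3.up_eq.symm.trans (hout _ _ _ hζ).2.2.down_eq)
        cases this
    by_cases c2 : ∃ η, Ms η (.inl (w :: l)) (.inl l)
    · obtain ⟨η, hη⟩ := c2
      obtain ⟨a2, -, a3⟩ := hout _ _ _ hη
      obtain ⟨b, hb⟩ := exists_ext (fun a b => ∃ u v, edge η u v ∈ q ∧ a = xq v ∧ b = xq u)
        (by
          rintro _ _ _ _ ⟨u, v, h, rfl, rfl⟩ ⟨u', v', h', rfl, rfl⟩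
          exact ((hq.iso xq hxq).wi h h').swap) a
      refine ⟨b, fun ζ hζ => absurd ⟨ζ, hζ⟩ c1, fun ζ hζ y' z' h => ?_,
        fun _ h => absurd hη (h η)⟩
      have := huniq η ζ l w false hη.1 hζ.1 a2 a3.down_eq (hout _ _ _ hζ).2.2.down_eq
      subst this
      exact (hb _ _ ⟨y', z', h, rfl, rfl⟩).swap
    · exact ⟨_, fun ζ hζ => absurd ⟨ζ, hζ⟩ c1, fun ζ hζ => absurd ⟨ζ, hζ⟩ c2, fun _ _ => rfl⟩
  choose f hf using htot
  let tI : Ix T → Seq := fun l => List.rec (base (.inl [])) (fun w l a => f w l a) l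
  have htI : ∀ w l, Rel w l (tI l) (tI (w :: l)) := fun w l => hf w l (tI l)
  let t : Pt T J → Seq := Sum.elim tI fun η => base (.inr η)
  have hA : ∀ y ∈ S, t y = xq y := by
    rintro ((_ | ⟨w, l⟩) | η) hy
    · exact hb2 _ hy
    · refine ((htI w l).2.2 (fun η h => (hout _ _ _ h).2.1 hy)
        fun η h => (hout _ _ _ h).1 hy).trans (hb2 _ hy)
    · exact hb2 _ hy
  have hB : t (.inl [w0]) = t' := by
    refine ((htI w0 []).2.2 (fun η h => (hout _ _ _ h).1 h0)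
      fun η h => (hout _ _ _ h).2.1 h0).trans ?_
    simp only [base, if_true]
  have hC : ∀ y ∈ pts p, agree n (t y) (x1 y) := by
    rintro (l | η) hy
    · induction l with
      | nil => exact hb1 _ hy
      | cons w l ih =>
        by_cases c1 : ∃ η, Ms η (.inl l) (.inl (w :: l))
        · obtain ⟨η, hη⟩ := c1
          have a1 := mem_pts_left hη.2.1
          have := (htI w l).1 η hη _ _ (h3 _ _ _ hη.2.1 hη.1) n
          exact (this.1 ((ih a1).trans (hπ _ a1).symm)).trans (hπ _ hy)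
        by_cases c2 : ∃ η, Ms η (.inl (w :: l)) (.inl l)
        · obtain ⟨η, hη⟩ := c2
          have a1 := mem_pts_right hη.2.1
          have := (htI w l).2.1 η hη _ _ (h3 _ _ _ hη.2.1 hη.1) n
          exact (this.2 ((ih a1).trans (hπ _ a1).symm)).trans (hπ _ hy)
        · have := (htI w l).2.2 (fun η h => c1 ⟨η, h⟩) fun η h => c2 ⟨η, h⟩
          show agree n (tI (w :: l)) _
          rw [this]
          exact hb1 _ hy
    · exact hb1 _ hy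
  obtain ⟨u, hu, hpu, hqu, hR⟩ := hp.amalg hq (fill_finite t (Set.finite_singleton (.inl [w0])) n')
    (fun _ _ _ => edge_not_mem_fill) S (t := t)
    (fun y k b hb => (hC y (mem_pts_bit hb) k (hn y k b hb)).trans (hx1 y k b hb))
    (fun y k b hb => by
      rw [hA y ((hin hb).1 (by simp [Atom.pts]))]; exact hxq y k b hb)
    (cons_fill _ _ _)
    (fun η y z y' z' e1 e2 e3 => by
      have hη : η ∈ K := (hin e2).2 (by simp [Atom.cs])
      have hy' : y' ∈ S := (hin e2).1 (by simp [Atom.pts])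
      have hz' : z' ∈ S := (hin e2).1 (by simp [Atom.pts])
      obtain ⟨hy, hz, hF⟩ := hout η y z ⟨hη, e1, e3⟩
      refine ⟨hy, hz, hy', hz', ?_⟩
      rw [hA y' hy', hA z' hz']
      rcases hF with ⟨l, m, rfl, rfl⟩ | ⟨l, m, rfl, rfl⟩
      · exact (htI _ l).1 η ⟨hη, e1, e3⟩ _ _ e2
      · exact (htI _ l).2.1 η ⟨hη, e1, e3⟩ _ _ e2)
  refine ⟨u, hu, hpu, hqu, fun m hm => hR ?_⟩
  rw [← hB]
  exact mem_fill (Set.mem_singleton _) hm

theorem luzin (hA : ∀ η, (𝒟.A η).Countable)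
    (hag : ∀ η ζ, η ≠ ζ →
      #{w : Ix T × Bool × ℕ | 𝒟.g η w.1 w.2.1 w.2.2 = 𝒟.g ζ w.1 w.2.1 w.2.2} ≤ 𝔠)
    (hT : 𝔠 < #T) (U : ℕ → Set (Atom (Pt T J) J) → ℕ → Seq → Prop)
    (hU : ∀ k p, 𝒟.Valid p → ∀ n t, ∃ r, 𝒟.Valid r ∧ p ⊆ r ∧
      ∃ n' t', n ≤ n' ∧ agree n t' t ∧ U k r n' t')
    (S0 : Set (Pt T J)) (hS0 : S0.Finite) :
    ∃ j : Ix T, Sum.inl j ∉ S0 ∧ ∀ k p, 𝒟.Valid p → ∃ u, 𝒟.Valid u ∧ p ⊆ u ∧
      ∃ r n' t', r ⊆ u ∧ U k r n' t' ∧ ∀ m < n', bit (.inl j) m (t' m) ∈ u := by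
  have hc : ℵ₀ ≤ 𝔠 := aleph0_le_continuum
  obtain ⟨S, K, hS, -, hS0', hcl, hG, h⟩ := exists_hull (μ := 𝔠) hc (ι := ℕ × ℕ × Seq) (by simp)
    (fun i => {q | 𝒟.Valid q ∧ ∃ n' t', i.2.1 ≤ n' ∧ agree i.2.1 t' i.2.2 ∧ U i.1 q n' t'})
    (fun _ q hq => hq.1.fin) 𝒟.nb (fun y η => small_countable hc (nb_countable hA y η))
    (fun η ζ => {z | η ≠ ζ ∧ ∃ l b n, 𝒟.g η l b n = 𝒟.g ζ l b n ∧ z = 𝒟.up η l b n})
    (fun η ζ => by
      by_cases e : η = ζ
      · exact small_countable hc (Set.countable_empty.mono fun z hz => hz.1 e)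
      · refine small_mono ?_ (small_image (fun w => 𝒟.up η w.1 w.2.1 w.2.2) (hag η ζ e))
        rintro _ ⟨_, l, b, n, h1, rfl⟩
        exact ⟨(l, b, n), h1, rfl⟩)
    (insert (.inl []) S0) (small_countable hc (hS0.insert _).countable)
  obtain ⟨τ, hτ⟩ : ∃ τ : T, Sum.inl [(false, 0, τ)] ∉ S := by
    by_contra hn
    push Not at hn
    have h1 := small_preimage (f := fun τ : T => (Sum.inl [(false, 0, τ)] : Pt T J))
      (fun a b e => by simpa using e) hS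
    rw [Set.eq_univ_of_forall (s := _ ⁻¹' S) hn, mk_univ] at h1
    exact absurd hT (not_lt.2 h1)
  refine ⟨[(false, 0, τ)], fun hm => hτ (hS0' (Or.inr hm)), fun k p hp => ?_⟩
  obtain ⟨x1, hx1⟩ := hp.cons
  obtain ⟨n, hn⟩ := exists_bound hp.fin
  have hp1 := hp.add_fill hx1 (pts_finite hp.fin) n
  obtain ⟨r, hr, hpr, hr'⟩ := hU k _ hp1 n (x1 (.inl [(false, 0, τ)]))
  obtain ⟨q, ⟨hq, n', t', -, ht', hU'⟩, ⟨π, h1, h2, h3⟩, hin⟩ :=
    h (k, n, x1 (.inl [(false, 0, τ)])) _ hp1.fin ⟨r, ⟨hr, hr'⟩, realises_of_subset hpr S K⟩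
  obtain ⟨xq, hxq⟩ := hq.cons
  obtain ⟨u, hu, hpu, hqu, hb⟩ := hp.propagate hq (hS0' (Or.inl rfl)) hcl
    (fun η hη ζ hζ e l b m e' => hG η hη ζ hζ ⟨e, l, b, m, e', rfl⟩) hin h1
    (fun η y z e => h3 η y z (Or.inl e)) hx1 hxq hn
    (fun y hy m hm => hxq _ _ _ (h2 y m _ (Or.inr (mem_fill hy hm)))) hτ t' ht' n'
  exact ⟨u, hu, hpu, q, n', t', hqu, hU', hb⟩

end Data

end Pool.Agent.Work.MP_3181e1_lc
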