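import Pool.Agent.Work.MP_3181e1_lc.Ext
import Pool.Agent.Work.MP_3181e1_lc.Defs

/-! From the data `CD` to the topological statement inside the model. -/

namespace Pool.Agent.Work.MP_3181e1_lc
open Pool.Agent.Lib.ZFModel Pool.Agent.Work.MP_63c7e0_lc

variable {M : Type 1} {E : M → M → Prop}

set_option synthInstance.maxSize 100000

variable (zf : IsZF E) (cd : CD E)
include zf

theorem nat_inj {m n : ℕ} (h : cd.nat m = cd.nat n) : m = n := by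
  rcases lt_trichotomy m n with h1 | h1 | h1
  · exact absurd ((cd.mem_nat _ n).2 ⟨m, h1, h.symm⟩) (not_mem_self zf (cd.nat n))
  · exact h1
  · exact absurd ((cd.mem_nat _ m).2 ⟨n, h1, h⟩) (not_mem_self zf (cd.nat m))

omit zf in
theorem nat_succ (n : ℕ) (z : M) : E z (cd.nat (n + 1)) ↔ E z (cd.nat n) ∨ z = cd.nat n := by
  rw [cd.mem_nat, cd.mem_nat]
  constructor
  · rintro ⟨m, hm, rfl⟩
    rcases Nat.lt_succ_iff_lt_or_eq.1 hm with h | rfl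
    · exact Or.inl ⟨m, h, rfl⟩
    · exact Or.inr rfl
  · rintro (⟨m, hm, rfl⟩ | rfl)
    · exact ⟨m, by omega, rfl⟩
    · exact ⟨n, by omega, rfl⟩

omit zf in
theorem nat_zero : IsEmptySet E (cd.nat 0) := fun x hx => by
  obtain ⟨m, hm, _⟩ := (cd.mem_nat _ _).1 hx
  omega

theorem isOmega_w : IsOmega E cd.w := by
  refine ⟨⟨⟨_, (cd.mem_w _).2 ⟨0, rfl⟩, nat_zero cd⟩, fun x hx => ?_⟩, fun w' hw' x hx => ?_⟩
  · obtain ⟨n, rfl⟩ := (cd.mem_w _).1 hx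
    exact ⟨_, (cd.mem_w _).2 ⟨n + 1, rfl⟩, nat_succ cd n⟩
  · obtain ⟨n, rfl⟩ := (cd.mem_w _).1 hx
    clear hx
    induction n with
    | zero =>
      obtain ⟨e, he, he'⟩ := hw'.1
      exact empty_unique zf he' (nat_zero cd) ▸ he
    | succ n ih =>
      obtain ⟨y, hy, h⟩ := hw'.2 _ ih
      have : y = cd.nat (n + 1) := zf.extensionality _ _ fun z => (h z).trans (nat_succ cd n z).symm
      exact this ▸ hy

theorem omega_eq {w : M} (h : IsOmega E w) : w = cd.w :=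
  zf.extensionality _ _ fun x => ⟨h.2 _ (isOmega_w zf cd).1 x, (isOmega_w zf cd).2 _ h.1 x⟩

theorem nat_mem_x (n : ℕ) (j : cd.J) : E (cd.nat n) (cd.x j) ↔ cd.t j n = true := by
  rw [cd.mem_x]
  exact ⟨fun ⟨m, hm, h⟩ => nat_inj zf cd h ▸ hm, fun h => ⟨n, h, rfl⟩⟩

theorem x_inj {i j : cd.J} (h : cd.x i = cd.x j) : i = j :=
  cd.inj (funext fun n => Bool.eq_iff_iff.2 (by rw [← nat_mem_x zf, ← nat_mem_x zf, h]))

theorem agree_iff (n : ℕ) (i j : cd.J) :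
    (∀ m, E m (cd.nat n) → (E m (cd.x j) ↔ E m (cd.x i))) ↔ ∀ m < n, cd.t j m = cd.t i m := by
  constructor
  · intro h m hm
    rw [Bool.eq_iff_iff, ← nat_mem_x zf, ← nat_mem_x zf]
    exact h _ ((cd.mem_nat _ _).2 ⟨m, hm, rfl⟩)
  · intro h a ha
    obtain ⟨m, hm, rfl⟩ := (cd.mem_nat _ _).1 ha
    rw [nat_mem_x zf, nat_mem_x zf, h m hm]

omit zf in
theorem x_sub (j : cd.J) : Sub E (cd.x j) cd.w := fun a ha => by
  obtain ⟨n, _, rfl⟩ := (cd.mem_x _ _).1 ha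
  exact (cd.mem_w _).2 ⟨n, rfl⟩

omit zf in
theorem xX (j : cd.J) : E (cd.x j) cd.X := (cd.mem_X _).2 ⟨j, rfl⟩

omit zf in
/-- The external description of the topology. -/
def IsTau (τ : M) : Prop := ∀ U, E U τ ↔ Sub E U cd.X ∧
  ∀ i, E (cd.x i) U → ∃ n, ∀ j, (∀ m < n, cd.t j m = cd.t i m) → E (cd.x j) U

theorem exists_tau : ∃ τ, IsCantorSubspace E cd.X τ ∧ IsTau cd τ := by
  have := zf.nonempty
  obtain ⟨W, hW⟩ := zf.powerset cd.X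
  obtain ⟨τ, hτ⟩ := zf.sep W fun U => ∀ x, E x U → ∃ n, E n cd.w ∧
    ∀ y, E y cd.X → (∀ m, E m n → (E m y ↔ E m x)) → E y U
  refine ⟨τ, ⟨cd.w, isOmega_w zf cd, fun a ha => ?_, fun U => by rw [hτ, hW]; rfl⟩, fun U => ?_⟩
  · obtain ⟨j, rfl⟩ := (cd.mem_X _).1 ha
    exact x_sub cd j
  · rw [hτ, hW]
    refine and_congr_right fun hU => ⟨fun h i hi => ?_, fun h a ha => ?_⟩
    · obtain ⟨a, ha, h1⟩ := h _ hi
      obtain ⟨n, rfl⟩ := (cd.mem_w _).1 ha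
      exact ⟨n, fun j hj => h1 _ (xX cd j) ((agree_iff zf cd n i j).2 hj)⟩
    · obtain ⟨i, rfl⟩ := (cd.mem_X _).1 (hU a ha)
      obtain ⟨n, hn⟩ := h i ha
      refine ⟨_, (cd.mem_w _).2 ⟨n, rfl⟩, fun y hy h1 => ?_⟩
      obtain ⟨j, rfl⟩ := (cd.mem_X _).1 hy
      exact hn j ((agree_iff zf cd n i j).1 h1)

variable {cd} {τ : M} (hτ : IsTau cd τ)
include hτ

omit zf in
theorem isTop : IsTop E cd.X τ := by
  refine ⟨fun U hU => ((hτ U).1 hU).1, (hτ _).2 ⟨fun _ h => h, fun i _ => ⟨0, fun j _ => xX cd j⟩⟩,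
    fun U V W hU hV hW => ?_, fun S W hS hW => ?_⟩
  · obtain ⟨h1, h2⟩ := (hτ U).1 hU
    obtain ⟨_, h4⟩ := (hτ V).1 hV
    refine (hτ W).2 ⟨fun x hx => h1 x ((hW x).1 hx).1, fun i hi => ?_⟩
    obtain ⟨m, hm⟩ := h2 i ((hW _).1 hi).1
    obtain ⟨n, hn⟩ := h4 i ((hW _).1 hi).2
    exact ⟨max m n, fun j hj => (hW _).2 ⟨hm j fun k hk => hj k (by omega),
      hn j fun k hk => hj k (by omega)⟩⟩
  · refine (hτ W).2 ⟨fun x hx => ?_, fun i hi => ?_⟩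
    · obtain ⟨U, hU, hx⟩ := (hW x).1 hx
      exact ((hτ U).1 (hS U hU)).1 x hx
    · obtain ⟨U, hU, hx⟩ := (hW _).1 hi
      obtain ⟨n, hn⟩ := ((hτ U).1 (hS U hU)).2 i hx
      exact ⟨n, fun j hj => (hW _).2 ⟨U, hU, hn j hj⟩⟩

theorem isDense_iff {D : M} (hD : Sub E D cd.X) : IsDense E cd.X τ D ↔
    ∀ n (s : ℕ → Bool), ∃ j, E (cd.x j) D ∧ ∀ m < n, cd.t j m = s m := by
  have := zf.nonempty
  constructor
  · intro h n s
    obtain ⟨i0⟩ := cd.ne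
    obtain ⟨i, _, hi⟩ := cd.fresh i0 n s
    obtain ⟨U, hU⟩ := zf.sep cd.X fun y => ∀ m, E m (cd.nat n) → (E m y ↔ E m (cd.x i))
    have hU' : ∀ j, E (cd.x j) U ↔ ∀ m < n, cd.t j m = cd.t i m := fun j => by
      rw [hU, agree_iff zf]; exact and_iff_right (xX cd j)
    obtain ⟨a, h1, h2⟩ := h.2 U ((hτ U).2 ⟨fun a ha => ((hU a).1 ha).1, fun j hj =>
      ⟨n, fun k hk => (hU' k).2 fun m hm => (hk m hm).trans ((hU' j).1 hj m hm)⟩⟩)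
      ⟨_, (hU' i).2 fun _ _ => rfl⟩
    obtain ⟨j, rfl⟩ := (cd.mem_X _).1 (hD a h2)
    exact ⟨j, h2, fun m hm => ((hU' j).1 h1 m hm).trans (hi m hm)⟩
  · refine fun h => ⟨hD, fun U hU ⟨a, ha⟩ => ?_⟩
    obtain ⟨h1, h2⟩ := (hτ U).1 hU
    obtain ⟨i, rfl⟩ := (cd.mem_X _).1 (h1 a ha)
    obtain ⟨n, hn⟩ := h2 i ha
    obtain ⟨j, h3, h4⟩ := h n (cd.t i)
    exact ⟨_, hn j h4, h3⟩

theorem isCrowded : IsCrowded E cd.X τ := by
  intro a s ha hs h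
  obtain ⟨i, rfl⟩ := (cd.mem_X _).1 ha
  obtain ⟨n, hn⟩ := ((hτ s).1 h).2 i ((hs _).2 rfl)
  obtain ⟨j, h1, h2⟩ := cd.fresh i n (cd.t i)
  exact h1 (x_inj zf cd ((hs _).1 (hn j h2)))

theorem isBaire : IsBaire E cd.X τ := by
  have := zf.nonempty
  intro w f C hw hf hd hC
  rw [omega_eq zf cd hw] at hf
  rw [isDense_iff zf hτ fun a ha => ((hC a).1 ha).1]
  intro n s
  obtain ⟨j, h1, h2⟩ := cd.baire (fun a k _ => ∀ U, App E f k U → E a U) inferInstance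
    (fun k n s => by
      obtain ⟨U, hU⟩ := hf.2.1 _ ((cd.mem_w _).2 ⟨k, rfl⟩)
      obtain ⟨h1, h2⟩ := (hτ U).1 (hf.mem zf hU).2
      obtain ⟨i, h3, h4⟩ := (isDense_iff zf hτ h1).1 (hd _ U hU) n s
      obtain ⟨n', hn'⟩ := h2 i h3
      refine ⟨max n n', cd.t i, le_max_left _ _, h4, fun j hj V hV => ?_⟩
      rw [hf.2.2 _ _ _ hV hU]
      exact hn' j fun m hm => hj m (by omega)) n s
  refine ⟨j, (hC _).2 ⟨xX cd j, fun a U hU => ?_⟩, h1⟩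
  obtain ⟨k, rfl⟩ := (cd.mem_w _).1 (hf.mem zf hU).1
  exact h2 k U hU

theorem isCDH : IsCDH E cd.X τ := by
  have := zf.nonempty
  rintro D D' ⟨w, f, hw, hf⟩ hD ⟨w', f', hw', hf'⟩ hD'
  rw [omega_eq zf cd hw] at hf
  rw [omega_eq zf cd hw'] at hf'
  have h01 : cd.nat 0 ≠ cd.nat 1 := fun h => absurd (nat_inj zf cd h) (by omega)
  have hm : ∀ {D f : M}, IsInj E f D cd.w → ∀ a, E a D ↔ ∃ n, App E f a (cd.nat n) := by
    intro D f hf a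
    refine ⟨fun h => ?_, fun ⟨n, h⟩ => (hf.1.mem zf h).1⟩
    obtain ⟨b, hb⟩ := hf.1.2.1 a h
    obtain ⟨n, rfl⟩ := (cd.mem_w _).1 (hf.1.mem zf hb).2
    exact ⟨n, hb⟩
  obtain ⟨h, e, h1, h2, h3, h4, h5⟩ := cd.cdh
    (fun a n k => (k = cd.nat 0 ∧ App E f a n) ∨ (k = cd.nat 1 ∧ App E f' a n)) inferInstance
    (by
      rintro i j n k (⟨h1, h2⟩ | ⟨h1, h2⟩) (⟨h3, h4⟩ | ⟨h3, h4⟩)
      · exact x_inj zf cd (hf.2 _ _ _ h2 h4)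
      · exact absurd (h1.symm.trans h3) h01
      · exact absurd (h3.symm.trans h1) h01
      · exact x_inj zf cd (hf'.2 _ _ _ h2 h4))
    (by
      intro k hk n s
      obtain rfl | rfl : k = 0 ∨ k = 1 := by omega
      · obtain ⟨j, h1, h2⟩ := (isDense_iff zf hτ hD.1).1 hD n s
        obtain ⟨l, hl⟩ := (hm hf _).1 h1
        exact ⟨j, l, Or.inl ⟨rfl, hl⟩, h2⟩
      · obtain ⟨j, h1, h2⟩ := (isDense_iff zf hτ hD'.1).1 hD' n s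
        obtain ⟨l, hl⟩ := (hm hf' _).1 h1
        exact ⟨j, l, Or.inr ⟨rfl, hl⟩, h2⟩)
  have h4' : ∀ i j, e i j → (E (cd.x i) D ↔ E (cd.x j) D') := by
    intro i j hij
    have := h4 i j hij
    simp only [true_and, h01, h01.symm, false_and, or_false, false_or] at this
    rw [hm hf, hm hf', this]
  have hA : ∀ a b, App E h a b ↔ ∃ i j, e i j ∧ a = cd.x i ∧ b = cd.x j := by
    intro a b
    constructor
    · rintro ⟨p, hp, h6⟩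
      obtain ⟨i, j, hij, h7⟩ := (h1 p).1 hp
      exact ⟨i, j, hij, pair_inj zf h6 h7⟩
    · rintro ⟨i, j, hij, rfl, rfl⟩
      obtain ⟨p, hp⟩ := exists_pair zf (cd.x i) (cd.x j)
      exact ⟨p, (h1 p).2 ⟨i, j, hij, hp⟩, hp⟩
  have hbij : ∀ i j i' j', e i j → e i' j' → (i = i' ↔ j = j') := by
    intro i j i' j' hij hij'
    constructor
    · rintro rfl
      exact cd.inj (funext fun n => (h5 _ _ _ _ (n + 1) hij hij').1 (fun _ _ => rfl) n (by omega))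
    · rintro rfl
      exact cd.inj (funext fun n => (h5 _ _ _ _ (n + 1) hij hij').2 (fun _ _ => rfl) n (by omega))
  have hV : ∀ {U V : M}, (∀ y, E y V ↔ ∃ x, E x U ∧ App E h x y) → ∀ i j, e i j →
      (E (cd.x j) V ↔ E (cd.x i) U) := by
    intro U V hV i j hij
    rw [hV]
    refine ⟨fun ⟨a, ha, h6⟩ => ?_, fun hi => ⟨_, hi, (hA _ _).2 ⟨i, j, hij, rfl, rfl⟩⟩⟩
    obtain ⟨i', j', h7, rfl, h8⟩ := (hA _ _).1 h6
    rwa [(hbij _ _ _ _ hij h7).2 (x_inj zf cd h8)]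
  refine ⟨h, ⟨⟨⟨fun p hp => ?_, fun a ha => ?_, fun a b b' hb hb' => ?_⟩, fun a a' b ha ha' => ?_,
    fun b hb => ?_⟩, fun U V hU hUV => ?_⟩, fun y => ⟨fun hy => ?_, ?_⟩⟩
  · obtain ⟨i, j, _, h6⟩ := (h1 p).1 hp
    exact ⟨_, _, xX cd i, xX cd j, h6⟩
  · obtain ⟨i, rfl⟩ := (cd.mem_X _).1 ha
    obtain ⟨j, hj⟩ := h2 i
    exact ⟨_, (hA _ _).2 ⟨i, j, hj, rfl, rfl⟩⟩
  · obtain ⟨i, j, h6, rfl, rfl⟩ := (hA _ _).1 hb
    obtain ⟨i', j', h7, h8, rfl⟩ := (hA _ _).1 hb'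
    rw [(hbij _ _ _ _ h6 h7).1 (x_inj zf cd h8)]
  · obtain ⟨i, j, h6, rfl, rfl⟩ := (hA _ _).1 ha
    obtain ⟨i', j', h7, rfl, h8⟩ := (hA _ _).1 ha'
    rw [(hbij _ _ _ _ h6 h7).2 (x_inj zf cd h8)]
  · obtain ⟨j, rfl⟩ := (cd.mem_X _).1 hb
    obtain ⟨i, hi⟩ := h3 j
    exact ⟨_, (hA _ _).2 ⟨i, j, hi, rfl, rfl⟩⟩
  · rw [hτ, hτ]
    refine ⟨fun ⟨_, h6⟩ => ⟨fun y hy => ?_, fun j hj => ?_⟩, fun ⟨_, h6⟩ => ⟨hU, fun i hi => ?_⟩⟩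
    · obtain ⟨a, _, h7⟩ := (hUV y).1 hy
      obtain ⟨i, j, _, _, rfl⟩ := (hA _ _).1 h7
      exact xX cd j
    · obtain ⟨i, hi⟩ := h3 j
      obtain ⟨n, hn⟩ := h6 i ((hV hUV i j hi).1 hj)
      refine ⟨n, fun j' hj' => ?_⟩
      obtain ⟨i', hi'⟩ := h3 j'
      exact (hV hUV i' j' hi').2 (hn i' ((h5 _ _ _ _ n hi' hi).2 hj'))
    · obtain ⟨j, hj⟩ := h2 i
      obtain ⟨n, hn⟩ := h6 j ((hV hUV i j hj).2 hi)
      refine ⟨n, fun i' hi' => ?_⟩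
      obtain ⟨j', hj'⟩ := h2 i'
      exact (hV hUV i' j' hj').1 (hn j' ((h5 _ _ _ _ n hj' hj).1 hi'))
  · obtain ⟨j, rfl⟩ := (cd.mem_X _).1 (hD'.1 y hy)
    obtain ⟨i, hi⟩ := h3 j
    exact ⟨_, (h4' i j hi).2 hy, (hA _ _).2 ⟨i, j, hi, rfl, rfl⟩⟩
  · rintro ⟨a, ha, h6⟩
    obtain ⟨i, j, h7, rfl, rfl⟩ := (hA _ _).1 h6
    exact (h4' i j h7).1 ha

omit hτ in
theorem ltContinuum : LtContinuum E cd.X := by
  have := zf.nonempty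
  obtain ⟨W, hW⟩ := zf.powerset cd.w
  refine ⟨cd.w, W, isOmega_w zf cd, hW, ?_, fun ⟨f, hf⟩ => ?_⟩
  · obtain ⟨f, h1, h2⟩ := exists_rel zf cd.X W fun a b => a = b
    refine ⟨f, ⟨h1, fun a ha => ⟨a, (h2 _ _).2 ⟨ha, ?_, rfl⟩⟩, fun a b b' hb hb' => ?_⟩,
      fun a a' b ha ha' => ?_⟩
    · obtain ⟨j, rfl⟩ := (cd.mem_X _).1 ha
      exact (hW _).2 (x_sub cd j)
    · exact ((h2 _ _).1 hb).2.2.symm.trans ((h2 _ _).1 hb').2.2
    · exact ((h2 _ _).1 ha).2.2.trans ((h2 _ _).1 ha').2.2.symm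
  · obtain ⟨c, h1, h2⟩ := cd.big (fun a n _ => ∃ y, App E f a y ∧ E n y) inferInstance
    obtain ⟨a, ha⟩ := hf.2.2 c ((hW c).2 h1)
    obtain ⟨j, rfl⟩ := (cd.mem_X _).1 (hf.1.mem zf ha).1
    obtain ⟨n, hn⟩ := h2 j
    exact hn ⟨fun ⟨y, h3, h4⟩ => hf.1.2.2 _ _ _ h3 ha ▸ h4, fun h => ⟨c, ha, h⟩⟩

omit zf hτ in
/-- The model side: a `CDHSys` yields a model of ZFC with a small crowded Baire CDH space. -/
theorem CDHSys.model {P I : Type} [Preorder P] {bit : P → I → ℕ → Bool → Prop}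
    (S : CDHSys P I bit) : ∃ (M : Type 1) (E : M → M → Prop), IsZFC E ∧
      ∃ X τ : M, IsTop E X τ ∧ IsCantorSubspace E X τ ∧ (∃ x, E x X) ∧ IsCrowded E X τ ∧
        IsBaire E X τ ∧ IsCDH E X τ ∧ LtContinuum E X := by
  obtain ⟨M, E, zfc, ⟨cd⟩⟩ := S.exists_cd
  obtain ⟨τ, h1, h2⟩ := exists_tau zfc.zf cd
  obtain ⟨j⟩ := cd.ne
  exact ⟨M, E, zfc, cd.X, τ, isTop h2, h1, ⟨_, xX cd j⟩, isCrowded zfc.zf h2, isBaire zfc.zf h2,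
    isCDH zfc.zf h2, ltContinuum zfc.zf⟩

end Pool.Agent.Work.MP_3181e1_lc
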