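import Pool.Agent.Work.MP_3181e1_lc.Basic

/-! The forcing poset: finite sets of bits and of edges. -/

namespace Pool.Agent.Work.MP_3181e1_lc

open Cardinal

abbrev Ix (T : Type) : Type := List (Bool × ℕ × T)
abbrev Pt (T J : Type) : Type := Ix T ⊕ J

inductive Atom (X J : Type) : Type
  | bit (y : X) (k : ℕ) (b : Bool) : Atom X J
  | edge (η : J) (y z : X) : Atom X J

open Atom

def Atom.pts {X J : Type} : Atom X J → Set X
  | bit y _ _ => {y}
  | edge _ y z => {y, z}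

def Atom.cs {X J : Type} : Atom X J → Set J
  | bit _ _ _ => ∅
  | edge η _ _ => {η}

def Atom.lev {X J : Type} : Atom X J → ℕ
  | bit _ k _ => k
  | edge _ _ _ => 0

def Atom.map {X Y J : Type} (f : X → Y) : Atom X J → Atom Y J
  | bit y k b => bit (f y) k b
  | edge η y z => edge η (f y) (f z)

theorem Atom.pts_finite {X J : Type} (a : Atom X J) : a.pts.Finite := by
  cases a <;> simp [Atom.pts]

theorem Atom.cs_finite {X J : Type} (a : Atom X J) : a.cs.Finite := by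
  cases a <;> simp [Atom.cs]

section general
variable {X J : Type}

def pts (p : Set (Atom X J)) : Set X := ⋃ a ∈ p, a.pts

theorem pts_finite {p : Set (Atom X J)} (hp : p.Finite) : (pts p).Finite :=
  hp.biUnion fun a _ => a.pts_finite

theorem mem_pts_bit {p : Set (Atom X J)} {y k b} (h : bit y k b ∈ p) : y ∈ pts p :=
  Set.mem_biUnion h (by simp [Atom.pts])

theorem mem_pts_left {p : Set (Atom X J)} {η y z} (h : edge η y z ∈ p) : y ∈ pts p :=
  Set.mem_biUnion h (by simp [Atom.pts])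

theorem mem_pts_right {p : Set (Atom X J)} {η y z} (h : edge η y z ∈ p) : z ∈ pts p :=
  Set.mem_biUnion h (by simp [Atom.pts])

theorem exists_bound {p : Set (Atom X J)} (hp : p.Finite) :
    ∃ N, ∀ y k b, bit y k b ∈ p → k < N := by
  obtain ⟨N, hN⟩ := (hp.image Atom.lev).bddAbove
  exact ⟨N + 1, fun y k b h => Nat.lt_succ_of_le (hN (Set.mem_image_of_mem _ h))⟩

def Cons (x : X → Seq) (p : Set (Atom X J)) : Prop := ∀ y k b, bit y k b ∈ p → x y k = b

def Iso (x : X → Seq) (p : Set (Atom X J)) : Prop :=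
  ∀ η y z y' z', edge η y z ∈ p → edge η y' z' ∈ p → (y = y' ∧ z = z') ∨
    Sep (x y) (x z) (x y') (x z')

theorem Cons.mono {x : X → Seq} {p q : Set (Atom X J)} (h : Cons x q) (hp : p ⊆ q) : Cons x p :=
  fun y k b hb => h y k b (hp hb)

theorem Cons.union {x : X → Seq} {p q : Set (Atom X J)} (h : Cons x p) (h' : Cons x q) :
    Cons x (p ∪ q) := fun y k b hb => hb.elim (h y k b) (h' y k b)

theorem Cons.update {x : X → Seq} {p : Set (Atom X J)} (h : Cons x p) {N : ℕ}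
    (hN : ∀ y k b, bit y k b ∈ p → k < N) (u : X → Bool) :
    Cons (fun y => Function.update (x y) N (u y)) p := fun y k b hb => by
  have := hN y k b hb
  simp only
  rw [Function.update_of_ne (by omega)]
  exact h y k b hb

theorem Iso.wi {x : X → Seq} {p : Set (Atom X J)} (h : Iso x p) {η y z y' z'}
    (h1 : edge η y z ∈ p) (h2 : edge η y' z' ∈ p) : WI (x y) (x z) (x y') (x z') := by
  rcases h η y z y' z' h1 h2 with ⟨rfl, rfl⟩ | h
  · exact WI.refl _ _
  · exact h.2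

def fill (x : X → Seq) (F : Set X) (N : ℕ) : Set (Atom X J) :=
  {a | ∃ y ∈ F, ∃ k < N, a = bit y k (x y k)}

theorem fill_finite (x : X → Seq) {F : Set X} (hF : F.Finite) (N : ℕ) :
    (fill x F N : Set (Atom X J)).Finite := by
  refine ((hF.prod (Set.finite_lt_nat N)).image fun a => bit a.1 a.2 (x a.1 a.2)).subset ?_
  rintro _ ⟨y, hy, k, hk, rfl⟩
  exact ⟨(y, k), ⟨hy, hk⟩, rfl⟩

theorem cons_fill (x : X → Seq) (F : Set X) (N : ℕ) : Cons x (fill x F N : Set (Atom X J)) := by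
  rintro y k b ⟨y', _, k', _, h⟩
  cases h; rfl

theorem mem_fill {x : X → Seq} {F : Set X} {N : ℕ} {y k} (hy : y ∈ F) (hk : k < N) :
    bit y k (x y k) ∈ (fill x F N : Set (Atom X J)) := ⟨y, hy, k, hk, rfl⟩

theorem edge_not_mem_fill {x : X → Seq} {F : Set X} {N : ℕ} {η y z} :
    edge η y z ∉ (fill x F N : Set (Atom X J)) := by
  rintro ⟨_, _, _, _, h⟩; cases h

theorem lt_of_mem_fill {x : X → Seq} {F : Set X} {N : ℕ} {y k b}
    (h : bit y k b ∈ (fill x F N : Set (Atom X J))) : k < N := by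
  obtain ⟨_, _, _, hk, h⟩ := h; cases h; exact hk

theorem Cons.agree_fill {x x' : X → Seq} {F : Set X} {N : ℕ} {p : Set (Atom X J)}
    (h : Cons x' p) (hp : fill x F N ⊆ p) {y} (hy : y ∈ F) : agree N (x' y) (x y) :=
  fun k hk => h y k _ (hp (mem_fill hy hk))

end general

/-- The ground model data: almost disjoint functions and the bookkeeping. -/
structure Data (T J : Type) where
  g : J → Ix T → Bool → ℕ → T
  A : J → Set (Pt T J)
  L : J → Set (Finset (Atom (Pt T J) J) × Pt T J × Pt T J)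

variable {T J : Type} [LinearOrder J] (𝒟 : Data T J)

namespace Data

def up (η : J) (l : Ix T) (b : Bool) (n : ℕ) : Pt T J := .inl ((b, n, 𝒟.g η l b n) :: l)

def Forest (η : J) (y z : Pt T J) : Prop :=
  (∃ l n, y = .inl l ∧ z = 𝒟.up η l true n) ∨ ∃ l n, z = .inl l ∧ y = 𝒟.up η l false n

def Allowed (p : Set (Atom (Pt T J) J)) (η : J) (y z : Pt T J) : Prop :=
  (y ∉ 𝒟.A η ∧ z ∉ 𝒟.A η ∧ 𝒟.Forest η y z) ∨
  (y ∈ 𝒟.A η ∧ z ∈ 𝒟.A η ∧ ∃ a, (a, y, z) ∈ 𝒟.L η ∧ (∀ ζ u v, edge ζ u v ∈ a → ζ < η) ∧ ↑a ⊆ p)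

structure Valid (p : Set (Atom (Pt T J) J)) : Prop where
  fin : p.Finite
  cons : ∃ x, Cons x p
  iso : ∀ x, Cons x p → Iso x p
  allowed : ∀ η y z, edge η y z ∈ p → 𝒟.Allowed p η y z

variable {𝒟}

theorem Allowed.mono {p q : Set (Atom (Pt T J) J)} {η y z} (h : 𝒟.Allowed p η y z) (hq : p ⊆ q) :
    𝒟.Allowed q η y z := by
  rcases h with h | ⟨h1, h2, a, h3, h4, h5⟩
  · exact Or.inl h
  · exact Or.inr ⟨h1, h2, a, h3, h4, h5.trans hq⟩

theorem valid_empty : 𝒟.Valid ∅ :=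
  ⟨Set.finite_empty, ⟨fun _ _ => false, fun _ _ _ h => h.elim⟩, fun _ _ _ _ _ _ _ h => h.elim,
    fun _ _ _ h => h.elim⟩

theorem Valid.add_bits {p R : Set (Atom (Pt T J) J)} (hp : 𝒟.Valid p) (hR : R.Finite)
    (hRe : ∀ η y z, edge η y z ∉ R) {x : Pt T J → Seq} (hx : Cons x p) (hxR : Cons x R) :
    𝒟.Valid (p ∪ R) := by
  have he : ∀ {η y z}, edge η y z ∈ p ∪ R → edge η y z ∈ p := fun h =>
    h.elim id fun h => absurd h (hRe _ _ _)
  refine ⟨hp.fin.union hR, ⟨x, hx.union hxR⟩, fun x' hx' η y z y' z' h1 h2 => ?_,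
    fun η y z h => (hp.allowed η y z (he h)).mono Set.subset_union_left⟩
  exact hp.iso x' (hx'.mono Set.subset_union_left) η y z y' z' (he h1) (he h2)

theorem Valid.add_fill {p : Set (Atom (Pt T J) J)} (hp : 𝒟.Valid p) {x : Pt T J → Seq}
    (hx : Cons x p) {F : Set (Pt T J)} (hF : F.Finite) (N : ℕ) : 𝒟.Valid (p ∪ fill x F N) :=
  hp.add_bits (fill_finite x hF N) (fun _ _ _ => edge_not_mem_fill) hx (cons_fill x F N)

/-- Prescribing the bits of a new point. -/
theorem Valid.add_point {p : Set (Atom (Pt T J) J)} (hp : 𝒟.Valid p) {z : Pt T J}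
    (hz : z ∉ pts p) (t : Seq) (N : ℕ) :
    ∃ q, 𝒟.Valid q ∧ p ⊆ q ∧ (∀ η u v, edge η u v ∈ q → edge η u v ∈ p) ∧
      ∀ k < N, bit z k (t k) ∈ q := by
  classical
  obtain ⟨x, hx⟩ := hp.cons
  have hx' : Cons (Function.update x z t) p := fun y k b h => by
    have hyz : y ≠ z := fun e => hz (e ▸ mem_pts_bit h)
    rw [Function.update_of_ne hyz]
    exact hx y k b h
  refine ⟨_, hp.add_fill hx' (Set.finite_singleton z) N, Set.subset_union_left,
    fun η u v h => h.elim id fun h => absurd h edge_not_mem_fill, fun k hk => Or.inr ?_⟩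
  have := mem_fill (J := J) (x := Function.update x z t) (Set.mem_singleton z) hk
  rwa [Function.update_self] at this

/-- Amalgamation. -/
theorem Valid.amalg {p q R : Set (Atom (Pt T J) J)} (hp : 𝒟.Valid p) (hq : 𝒟.Valid q)
    (hR : R.Finite) (hRe : ∀ η y z, edge η y z ∉ R) (S : Set (Pt T J)) {t : Pt T J → Seq}
    (htp : Cons t p) (htq : Cons t q) (htR : Cons t R)
    (h : ∀ η y z y' z', edge η y z ∈ p → edge η y' z' ∈ q → edge η y z ∉ q →
      y ∉ S ∧ z ∉ S ∧ y' ∈ S ∧ z' ∈ S ∧ WI (t y) (t z) (t y') (t z')) :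
    ∃ u, 𝒟.Valid u ∧ p ⊆ u ∧ q ⊆ u ∧ R ⊆ u := by
  classical
  have hU : (p ∪ q ∪ R).Finite := (hp.fin.union hq.fin).union hR
  obtain ⟨N, hN⟩ := exists_bound hU
  let x : Pt T J → Seq := fun y => Function.update (t y) N (decide (y ∈ S))
  have hx : Cons x (p ∪ q ∪ R) := ((htp.union htq).union htR).update hN _
  have he : ∀ {η y z}, edge η y z ∈ p ∪ q ∪ R ∪ fill x (pts (p ∪ q ∪ R)) (N + 1) →
      edge η y z ∈ p ∨ edge η y z ∈ q := fun h =>
    (h.elim id fun h => absurd h edge_not_mem_fill).elim id fun h => absurd h (hRe _ _ _)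
  have hpu : p ⊆ p ∪ q ∪ R ∪ fill x (pts (p ∪ q ∪ R)) (N + 1) := fun a ha =>
    Or.inl (Or.inl (Or.inl ha))
  have hqu : q ⊆ p ∪ q ∪ R ∪ fill x (pts (p ∪ q ∪ R)) (N + 1) := fun a ha =>
    Or.inl (Or.inl (Or.inr ha))
  refine ⟨p ∪ q ∪ R ∪ fill x (pts (p ∪ q ∪ R)) (N + 1),
    ⟨hU.union (fill_finite x (pts_finite hU) _), ⟨x, hx.union (cons_fill _ _ _)⟩, ?_, ?_⟩,
    hpu, hqu, fun a ha => Or.inl (Or.inr ha)⟩
  · intro x' hx'
    have key : ∀ η y z y' z', edge η y z ∈ p → edge η y' z' ∈ q → edge η y z ∉ q →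
        Sep (x' y) (x' z) (x' y') (x' z') := by
      intro η y z y' z' h1 h2 h3
      obtain ⟨a1, a2, a3, a4, hw⟩ := h η y z y' z' h1 h2 h3
      have hw' : WI (x y) (x z) (x y') (x z') := hw.update (by simp [a1, a3]) (by simp [a2, a4])
      have hag : ∀ w ∈ pts (p ∪ q ∪ R), agree (N + 1) (x' w) (x w) := fun w hw =>
        hx'.agree_fill Set.subset_union_right hw
      refine sep_of_wi hw' (N := N + 1) (fun hc => ?_)
        (hag _ (mem_pts_left (Or.inl (Or.inl h1)))) (hag _ (mem_pts_right (Or.inl (Or.inl h1))))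
        (hag _ (mem_pts_left (Or.inl (Or.inr h2)))) (hag _ (mem_pts_right (Or.inl (Or.inr h2))))
      have := hc N (Nat.lt_succ_self N)
      simp [x, a1, a3] at this
    intro η y z y' z' h1 h2
    by_cases c1 : edge η y z ∈ q
    · by_cases c2 : edge η y' z' ∈ q
      · exact hq.iso x' (hx'.mono hqu) η y z y' z' c1 c2
      · exact Or.inr (key η y' z' y z ((he h2).resolve_right c2) c1 c2).symm
    · have c3 := (he h1).resolve_right c1
      rcases he h2 with c2 | c2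
      · exact hp.iso x' (hx'.mono hpu) η y z y' z' c3 c2
      · exact Or.inr (key η y z y' z' c3 c2 c1)
  · intro η y z h
    rcases he h with h | h
    · exact (hp.allowed η y z h).mono hpu
    · exact (hq.allowed η y z h).mono hqu

/-- Keep the edges of `p` and the part of the extension `q` below `η`. -/
def reset (p q : Set (Atom (Pt T J) J)) (η : J) : Set (Atom (Pt T J) J) :=
  {a | a ∈ q ∧ (a ∈ p ∨ ∀ ζ u v, a = edge ζ u v → ζ < η)}

theorem Valid.reset {p q : Set (Atom (Pt T J) J)} (hp : 𝒟.Valid p) (hq : 𝒟.Valid q) (hpq : p ⊆ q)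
    (η : J) : 𝒟.Valid (reset p q η) := by
  have hs : Data.reset p q η ⊆ q := fun a ha => ha.1
  obtain ⟨x, hx⟩ := hq.cons
  refine ⟨hq.fin.subset hs, ⟨x, hx.mono hs⟩, fun x' hx' ζ y z y' z' h1 h2 => ?_,
    fun ζ y z h => ?_⟩
  · exact hq.iso x' (fun w k b h => hx' w k b ⟨h, Or.inr fun _ _ _ e => by cases e⟩)
      ζ y z y' z' h1.1 h2.1
  · rcases h.2 with h1 | h1
    · exact (hp.allowed ζ y z h1).mono fun a ha => ⟨hpq ha, Or.inl ha⟩
    · rcases hq.allowed ζ y z h.1 with h2 | ⟨h2, h3, a, h4, h5, h6⟩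
      · exact Or.inl h2
      · refine Or.inr ⟨h2, h3, a, h4, h5, fun c hc => ⟨h6 hc, Or.inr ?_⟩⟩
        rintro ξ u v rfl
        exact (h5 ξ u v hc).trans (h1 ζ y z rfl)

theorem Valid.add_edge {p : Set (Atom (Pt T J) J)} (hp : 𝒟.Valid p) {η y z}
    (hs : ∀ x, Cons x p → ∀ y' z', edge η y' z' ∈ p → Sep (x y) (x z) (x y') (x z'))
    (ha : 𝒟.Allowed p η y z) : 𝒟.Valid (insert (edge η y z) p) := by
  obtain ⟨x, hx⟩ := hp.cons
  have hc : ∀ x, Cons x (insert (edge η y z) p) → Cons x p := fun x h =>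
    h.mono (Set.subset_insert _ _)
  refine ⟨hp.fin.insert _, ⟨x, fun w k b h => ?_⟩, fun x' hx' ζ u v u' v' h1 h2 => ?_,
    fun ζ u v h => ?_⟩
  · rcases h with h | h
    · cases h
    · exact hx w k b h
  · rcases h1 with h1 | h1 <;> rcases h2 with h2 | h2
    · cases h1; cases h2; exact Or.inl ⟨rfl, rfl⟩
    · cases h1; exact Or.inr (hs x' (hc x' hx') u' v' h2)
    · cases h2; exact Or.inr (hs x' (hc x' hx') u v h1).symm
    · exact hp.iso x' (hc x' hx') ζ u v u' v' h1 h2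
  · rcases h with h | h
    · cases h; exact ha.mono (Set.subset_insert _ _)
    · exact (hp.allowed ζ u v h).mono (Set.subset_insert _ _)

/-- The basic open set in which the partner of `y` has to be chosen. -/
theorem Valid.target {p : Set (Atom (Pt T J) J)} (hp : 𝒟.Valid p) (Rel : Pt T J → Pt T J → Prop)
    (hRel : ∀ u v, Rel u v → u ∈ pts p ∧ v ∈ pts p)
    (hwi : ∀ x, Cons x p → ∀ u v u' v', Rel u v → Rel u' v' → WI (x u) (x v) (x u') (x v'))
    (y : Pt T J) (hy : ∀ v, ¬ Rel y v) :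
    ∃ q, 𝒟.Valid q ∧ p ⊆ q ∧ (∀ η u v, edge η u v ∈ q → edge η u v ∈ p) ∧ ∃ (N : ℕ) (t : Seq),
      ∀ x, Cons x q → ∀ b, agree N b t → ∀ u v, Rel u v → Sep (x y) b (x u) (x v) := by
  classical
  obtain ⟨x0, hx0⟩ := hp.cons
  obtain ⟨N, hN⟩ := exists_bound hp.fin
  let x1 : Pt T J → Seq := fun w => Function.update (x0 w) N (decide (w = y))
  have hx1 : Cons x1 p := hx0.update hN _
  obtain ⟨t, ht⟩ := exists_ext (fun a b => ∃ u v, Rel u v ∧ a = x1 u ∧ b = x1 v)
    (by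
      rintro _ _ _ _ ⟨u, v, h, rfl, rfl⟩ ⟨u', v', h', rfl, rfl⟩
      exact hwi x1 hx1 u v u' v' h h') (x1 y)
  have hF : (insert y (pts p)).Finite := (pts_finite hp.fin).insert y
  refine ⟨_, hp.add_fill hx1 hF (N + 1), Set.subset_union_left,
    fun η u v h => h.elim id fun h => absurd h edge_not_mem_fill, N + 1, t,
    fun x hx b hb u v h => ?_⟩
  have hag : ∀ w ∈ insert y (pts p), agree (N + 1) (x w) (x1 w) := fun w hw =>
    hx.agree_fill Set.subset_union_right hw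
  refine sep_of_wi (ht _ _ ⟨u, v, h, rfl, rfl⟩) (N := N + 1) (fun hc => ?_)
    (hag _ (Set.mem_insert _ _)) hb (hag _ (Or.inr (hRel u v h).1)) (hag _ (Or.inr (hRel u v h).2))
  have h1 := hc N (Nat.lt_succ_self N)
  have h2 : u ≠ y := fun e => hy v (e ▸ h)
  simp [x1, h2] at h1

/-- Separating two points. -/
theorem Valid.separate {p : Set (Atom (Pt T J) J)} (hp : 𝒟.Valid p) {y z : Pt T J} (h : y ≠ z) :
    ∃ q, 𝒟.Valid q ∧ p ⊆ q ∧ ∃ m, bit y m true ∈ q ∧ bit z m false ∈ q := by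
  classical
  obtain ⟨x0, hx0⟩ := hp.cons
  obtain ⟨N, hN⟩ := exists_bound hp.fin
  let x1 : Pt T J → Seq := fun w => Function.update (x0 w) N (decide (w = y))
  have hx1 : Cons x1 p := hx0.update hN _
  refine ⟨_, hp.add_fill hx1 (F := {y, z}) (Set.toFinite _) (N + 1), Set.subset_union_left, N,
    Or.inr ?_, Or.inr ?_⟩
  · have := mem_fill (J := J) (x := x1) (F := {y, z}) (y := y) (by simp) (Nat.lt_succ_self N)
    simpa [x1] using this
  · have := mem_fill (J := J) (x := x1) (F := {y, z}) (y := z) (by simp) (Nat.lt_succ_self N)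
    simpa [x1, h.symm] using this

end Data

end Pool.Agent.Work.MP_3181e1_lc
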